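import Pool.Agent.Helper27_QL.Defs
import Pool.Agent.Helper96_RT.Remez

/-!
Module M1 (Remez inequality) of the blueprint `Pool/Agent/Helper27_QL/PLAN.md`.
-/

set_option autoImplicit false
open Matrix Polynomial MeasureTheory Set Filter Topology

namespace QL

theorem remez (D : ℕ) (η : ℝ) (hη : 0 < η) : ∃ c : ℝ, 0 < c ∧ ∀ p : ℝ[X], p.natDegree ≤ D →
    ∀ a b e : ℝ, a < b → e ∈ Icc a b →
      volume {x ∈ Icc a b | |p.eval x| < c * |p.eval e|} ≤ ENNReal.ofReal (η * (b - a)) := by
  have hD : (0 : ℝ) < (D : ℝ) + 1 := by positivity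
  refine ⟨η ^ D / (2 * ((D : ℝ) + 1) ^ (D + 1)), by positivity, ?_⟩
  intro p hp a b e hab he
  set c : ℝ := η ^ D / (2 * ((D : ℝ) + 1) ^ (D + 1)) with hc
  set E : Set ℝ := {x ∈ Icc a b | |p.eval x| < c * |p.eval e|} with hE
  by_contra hcon
  push Not at hcon
  have hEab : E ⊆ Icc a b := fun x hx => hx.1
  have hEm : MeasurableSet E := by
    have h1 : IsOpen {x : ℝ | |p.eval x| < c * |p.eval e|} :=
      isOpen_lt (p.continuous.abs) continuous_const
    exact measurableSet_Icc.inter h1.measurableSet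
  have hfin : volume E ≠ ⊤ := by
    refine ne_top_of_le_ne_top ?_ (measure_mono hEab)
    simp
  have hba : 0 < b - a := by linarith
  have hv : η * (b - a) < (volume E).toReal := by
    rw [← ENNReal.ofReal_lt_iff_lt_toReal (by positivity) hfin]
    exact hcon
  have hpos : 0 < (volume E).toReal := lt_trans (by positivity) hv
  have h := Pool.Agent.RT.remez_set D p hp a b (c * |p.eval e|) E hEm hEab
    (fun s hs => hs.2.le) hpos e he
  have h2 : (η * (b - a)) ^ D ≤ (volume E).toReal ^ D := pow_le_pow_left₀ (by positivity) hv.le D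
  have h3 : (η * (b - a)) ^ D * |p.eval e| ≤ (η * (b - a)) ^ D * |p.eval e| / 2 := by
    calc (η * (b - a)) ^ D * |p.eval e| ≤ (volume E).toReal ^ D * |p.eval e| :=
          mul_le_mul_of_nonneg_right h2 (abs_nonneg _)
      _ ≤ ((D : ℝ) + 1) ^ (D + 1) * (b - a) ^ D * (c * |p.eval e|) := h
      _ = (η * (b - a)) ^ D * |p.eval e| / 2 := by
          rw [hc, mul_pow]; field_simp
  have h4 : 0 < (η * (b - a)) ^ D := by positivity
  have h5 : |p.eval e| ≤ 0 := by
    by_contra h6
    push Not at h6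
    have : 0 < (η * (b - a)) ^ D * |p.eval e| := by positivity
    linarith
  have h6 : |p.eval e| = 0 := le_antisymm h5 (abs_nonneg _)
  have hempty : E = ∅ := by
    rw [Set.eq_empty_iff_forall_notMem]
    rintro x ⟨_, hx⟩
    rw [h6, mul_zero] at hx
    exact absurd hx (not_lt.2 (abs_nonneg _))
  rw [hempty] at hpos
  simp at hpos

end QL
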