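import Pool.Agent.Helper96_QL.RatSub
import Pool.Agent.Helper96_QL.Remez
import Pool.Agent.Helper96_RT.KM

/-!
Module M3 (Kleinbock-Margulis nondivergence in one variable) of the blueprint
`Pool/Agent/Helper27_QL/PLAN.md`.
-/

set_option autoImplicit false
open Matrix Polynomial MeasureTheory Set Filter Topology

namespace QL.Nd

set_option linter.unusedSectionVars false

variable {ι : Type} [Fintype ι] [DecidableEq ι]

/-- comparability -/
def cmpS (V W : Submodule ℚ (ι → ℚ)) : Prop := V ≤ W ∨ W ≤ V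

/-- a marked point has no short vectors -/
theorem marked_short (h : Matrix ι ι ℝ) (ε' κ' : ℝ) (hεκ : ε' ≤ κ') (hκ1 : κ' ≤ 1)
    (F : Finset (Submodule ℚ (ι → ℚ)))
    (hchain : ∀ V ∈ F, ∀ W ∈ F, V ≠ W → cmpS V W)
    (hF : ∀ V ∈ F, ε' ≤ cov h V ∧ cov h V ≤ κ')
    (hout : ∀ W, W ≠ ⊥ → W ∉ F → (∀ V ∈ F, cmpS W V) → κ' ≤ cov h W)
    (v : ι → ℤ) (hv : v ≠ 0) : ε' ≤ (Fintype.card ι + 1) * ‖h *ᵥ iv v‖ := by
  classical
  set vq : ι → ℚ := fun r => (v r : ℚ) with hvq
  have hvq0 : vq ≠ 0 := by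
    intro h0
    apply hv
    ext r
    have := congrFun h0 r
    simpa [hvq] using this
  have hcomp : ∀ V ∈ F, ∀ W ∈ F, V ≤ W ∨ W ≤ V := by
    intro V hV W hW
    by_cases hVW : V = W
    · left; rw [hVW]
    · exact hchain V hV W hW hVW
  -- the largest member of the flag not containing v
  obtain ⟨V, hvV, hV1, hVF⟩ : ∃ V : Submodule ℚ (ι → ℚ), vq ∉ V ∧ cov h V ≤ 1 ∧
      ∀ W ∈ F, (vq ∉ W → W ≤ V) ∧ (vq ∈ W → V ≤ W) := by
    by_cases hne : (F.filter (fun V => vq ∉ V)).Nonempty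
    · obtain ⟨V, hV⟩ := Finset.exists_maximal hne
      have hVm := (Finset.mem_filter.1 hV.prop)
      refine ⟨V, hVm.2, (hF V hVm.1).2.trans hκ1, ?_⟩
      intro W hW
      constructor
      · intro hvW
        rcases hcomp W hW V hVm.1 with h1 | h1
        · exact h1
        · exact hV.le_of_ge (Finset.mem_filter.2 ⟨hW, hvW⟩) h1
      · intro hvW
        rcases hcomp W hW V hVm.1 with h1 | h1
        · exact absurd (h1 hvW) hVm.2
        · exact h1
    · refine ⟨⊥, ?_, cov_bot h, ?_⟩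
      · rw [Submodule.mem_bot]; exact hvq0
      · intro W hW
        constructor
        · intro hvW
          exact absurd ⟨W, Finset.mem_filter.2 ⟨hW, hvW⟩⟩ hne
        · intro _; exact bot_le
  set W : Submodule ℚ (ι → ℚ) := V ⊔ Submodule.span ℚ {vq} with hW
  have hvW : vq ∈ W := (le_sup_right : Submodule.span ℚ {vq} ≤ W)
    (Submodule.mem_span_singleton_self _)
  have hW0 : W ≠ ⊥ := by
    intro h0
    rw [h0, Submodule.mem_bot] at hvW
    exact hvq0 hvW
  have hWcmp : ∀ V' ∈ F, cmpS W V' := by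
    intro V' hV'
    by_cases hvV' : vq ∈ V'
    · left
      refine sup_le ((hVF V' hV').2 hvV') ?_
      rw [Submodule.span_le, Set.singleton_subset_iff]
      exact hvV'
    · right
      exact ((hVF V' hV').1 hvV').trans le_sup_left
  have hcovW : ε' ≤ cov h W := by
    by_cases hWF : W ∈ F
    · exact (hF W hWF).1
    · exact hεκ.trans (hout W hW0 hWF hWcmp)
  have h1 := cov_sup_le h V v hvV
  have hcov0 : 0 ≤ cov h V := norm_nonneg _
  have hfr : (Module.finrank ℚ V : ℝ) ≤ Fintype.card ι := by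
    have : Module.finrank ℚ V ≤ Module.finrank ℚ (ι → ℚ) := Submodule.finrank_le V
    rw [Module.finrank_fintype_fun_eq_card] at this
    exact_mod_cast this
  calc ε' ≤ cov h W := hcovW
    _ ≤ (Module.finrank ℚ V + 1) * ‖h *ᵥ iv v‖ * cov h V := h1
    _ ≤ (Module.finrank ℚ V + 1) * ‖h *ᵥ iv v‖ * 1 :=
        mul_le_mul_of_nonneg_left hV1 (by positivity)
    _ ≤ (Fintype.card ι + 1) * ‖h *ᵥ iv v‖ := by
        rw [mul_one]
        exact mul_le_mul_of_nonneg_right (by linarith) (norm_nonneg _)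

/-- the subset of `Q^ι` defined by a vector of minors -/
def Vof {k : ℕ} (T : (Fin k → ι) → ℤ) : Set (ι → ℚ) :=
  {v | ∀ i : Fin (k + 1) → ι,
    ∑ j : Fin (k + 1), (-1) ^ (j : ℕ) * v (i j) * (T (i ∘ j.succAbove) : ℚ) = 0}

theorem Vof_mnr {V : Submodule ℚ (ι → ℚ)} {k : ℕ} {A : Matrix ι (Fin k) ℤ} (h : Rep V A)
    (hk : k = Module.finrank ℚ V) : (V : Set (ι → ℚ)) = Vof (mnr A) := by
  have hmnr : ∀ v : ι → ℚ, ∀ i : Fin (k + 1) → ι,
      mnr (addc v (qm A)) i =
      ∑ j : Fin (k + 1), (-1) ^ (j : ℕ) * v (i j) * ((mnr A (i ∘ j.succAbove) : ℤ) : ℚ) := by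
    intro v i
    rw [mnr_addc]
    refine Finset.sum_congr rfl fun j _ => ?_
    congr 1
    unfold qm
    rw [mnr_map]
    rfl
  ext v
  constructor
  · intro hv i
    rw [← hmnr]
    have : mnr (addc v (qm A)) = 0 := by
      refine mnr_eq_zero_of_addc v _ ?_
      rw [h.span_eq hk]; exact hv
    rw [this]; rfl
  · intro hv
    by_contra hcon
    refine exists_minor_ne_zero (addc v (qm A)) (linInd_addc v _ h.li ?_) ?_
    · rw [h.span_eq hk]; exact hcon
    · ext i
      rw [hmnr]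
      exact hv i

theorem finite_cov (h : Matrix ι ι ℝ) (hdet : h.det = 1) (κ' : ℝ) :
    {V : Submodule ℚ (ι → ℚ) | cov h V < κ'}.Finite := by
  classical
  have hinv : h⁻¹ * h = 1 := Matrix.nonsing_inv_mul h (by rw [hdet]; exact isUnit_one)
  have hk : ∀ k : ℕ, {V : Submodule ℚ (ι → ℚ) | cov h V < κ' ∧ Module.finrank ℚ V = k}.Finite := by
    intro k
    set C : ℝ := ∑ i : Fin k → ι, ∑ j : Fin k → ι, |∏ a, h⁻¹ (i a) (j a)| * κ' with hC
    set N : ℤ := ⌈|C|⌉ with hN
    have hTfin : {T : (Fin k → ι) → ℤ | ∀ i, |(T i : ℝ)| ≤ |C|}.Finite := by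
      refine (Set.finite_Icc (fun _ : Fin k → ι => -N) (fun _ => N)).subset ?_
      intro T hT
      constructor
      · intro i
        have h1 := (abs_le.1 (hT i)).1
        have h2 : |C| ≤ (N : ℝ) := Int.le_ceil _
        have : ((-N : ℤ) : ℝ) ≤ T i := by push_cast; linarith
        exact_mod_cast this
      · intro i
        have h1 := (abs_le.1 (hT i)).2
        have h2 : |C| ≤ (N : ℝ) := Int.le_ceil _
        have : (T i : ℝ) ≤ ((N : ℤ) : ℝ) := by linarith
        exact_mod_cast this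
    refine ((hTfin.image Vof).preimage (SetLike.coe_injective.injOn)).subset ?_
    rintro V ⟨hV, hVk⟩
    subst hVk
    refine ⟨mnr (mr V), ?_, (Vof_mnr (mr_rep V) rfl).symm⟩
    intro i
    have h1 : rm (mr V) = h⁻¹ * (h * rm (mr V)) := by
      rw [← Matrix.mul_assoc, hinv, Matrix.one_mul]
    have h2 : ((mnr (mr V) i : ℤ) : ℝ) = mnr (rm (mr V)) i := by
      unfold rm
      rw [mnr_map]
      rfl
    rw [h2, h1, mnr_gmul]
    have hκ' : 0 ≤ κ' := (norm_nonneg _).trans hV.le
    have h3 : ∀ j, |mnr (h * rm (mr V)) j| ≤ κ' := by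
      intro j
      exact (norm_le_pi_norm (mnr (h * rm (mr V))) j).trans hV.le
    have h4 : |∑ j : Fin (Module.finrank ℚ V) → ι,
        (∏ a, h⁻¹ (i a) (j a)) * mnr (h * rm (mr V)) j| ≤
        ∑ j : Fin (Module.finrank ℚ V) → ι, |∏ a, h⁻¹ (i a) (j a)| * κ' := by
      refine (Finset.abs_sum_le_sum_abs _ _).trans ?_
      refine Finset.sum_le_sum fun j _ => ?_
      rw [abs_mul]
      exact mul_le_mul_of_nonneg_left (h3 j) (abs_nonneg _)
    have h5 : ∑ j : Fin (Module.finrank ℚ V) → ι, |∏ a, h⁻¹ (i a) (j a)| * κ' ≤ C := by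
      rw [hC]
      exact Finset.single_le_sum
        (f := fun i : Fin (Module.finrank ℚ V) → ι =>
          ∑ j : Fin (Module.finrank ℚ V) → ι, |∏ a, h⁻¹ (i a) (j a)| * κ')
        (fun i _ => Finset.sum_nonneg fun j _ => mul_nonneg (abs_nonneg _) hκ')
        (Finset.mem_univ i)
    exact h4.trans (h5.trans (le_abs_self _))
  refine ((Set.finite_Iic (Fintype.card ι)).biUnion (fun k _ => hk k)).subset ?_
  intro V hV
  refine mem_biUnion (show Module.finrank ℚ V ∈ Set.Iic (Fintype.card ι) from ?_) ⟨hV, rfl⟩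
  have : Module.finrank ℚ V ≤ Module.finrank ℚ (ι → ℚ) := Submodule.finrank_le V
  rw [Module.finrank_fintype_fun_eq_card] at this
  exact this

/-- a component of the vector of minors along a polynomial path is a polynomial -/
theorem mnr_poly (D : ℕ) (P : Matrix ι ι ℝ[X]) (hP : ∀ i j, (P i j).natDegree ≤ D) {k : ℕ}
    (A : Matrix ι (Fin k) ℤ) (i : Fin k → ι) :
    ∃ p : ℝ[X], p.natDegree ≤ k * D ∧ ∀ t, mnr (ev P t * rm A) i = p.eval t := by
  set AC : Matrix ι (Fin k) ℝ[X] := A.map (fun m : ℤ => Polynomial.C (m : ℝ)) with hAC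
  refine ⟨((P * AC).submatrix i id).det, ?_, ?_⟩
  · rw [Matrix.det_apply]
    refine Polynomial.natDegree_sum_le_of_forall_le _ _ fun σ _ => ?_
    refine (Polynomial.natDegree_smul_le _ _).trans ?_
    refine (Polynomial.natDegree_prod_le _ _).trans ?_
    calc ∑ a : Fin k, (((P * AC).submatrix i id) (σ a) a).natDegree ≤ ∑ _a : Fin k, D := by
          refine Finset.sum_le_sum fun a _ => ?_
          rw [Matrix.submatrix_apply, Matrix.mul_apply]
          refine Polynomial.natDegree_sum_le_of_forall_le _ _ fun j _ => ?_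
          refine (Polynomial.natDegree_mul_le).trans ?_
          rw [hAC, Matrix.map_apply, Polynomial.natDegree_C, add_zero]
          exact hP _ _
      _ = k * D := by rw [Finset.sum_const, Finset.card_univ, Fintype.card_fin, smul_eq_mul]
  · intro t
    have h1 : (ev P t * rm A) = (P * AC).map (Polynomial.evalRingHom t) := by
      rw [Matrix.map_mul]
      congr 1
      ext r c
      simp [rm, hAC]
    rw [h1, mnr_map]
    rfl

end QL.Nd

namespace QL
open QL.Nd

theorem nondiv (ι : Type) [Fintype ι] [DecidableEq ι] (D : ℕ) (κ ε : ℝ) (hκ : 0 < κ)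
    (hε : 0 < ε) : ∃ ε1 : ℝ, 0 < ε1 ∧ ∀ P : Matrix ι ι ℝ[X], (∀ i j, (P i j).natDegree ≤ D) →
    (∀ τ, (ev P τ).det = 1) → ND κ (ev P) →
    volume {τ ∈ Icc (0 : ℝ) 1 | ∃ v : ι → ℤ, v ≠ 0 ∧ ∀ i, |(ev P τ *ᵥ iv v) i| < ε1} ≤
      ENNReal.ofReal ε := by
  classical
  set N : ℕ := Fintype.card ι with hN
  set κ' : ℝ := min κ 1 with hκ'
  have hκ'0 : 0 < κ' := lt_min hκ one_pos
  have hκ'1 : κ' ≤ 1 := min_le_right _ _
  set η : ℝ := ε / (Pool.Agent.RT.kmc N + 1) with hη
  have hη0 : 0 < η := by positivity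
  obtain ⟨c0, hc0, hrem⟩ := remez (N * D) η hη0
  set c1 : ℝ := min c0 1 with hc1
  have hc1pos : 0 < c1 := lt_min hc0 one_pos
  set ε' : ℝ := c1 * κ' with hε'
  have hε'0 : 0 < ε' := by positivity
  have hε'κ : ε' ≤ κ' := by
    rw [hε']
    exact mul_le_of_le_one_left hκ'0.le (min_le_right _ _)
  refine ⟨ε' / (N + 1), by positivity, ?_⟩
  intro P hP hdet hND
  set ψ : Submodule ℚ (ι → ℚ) → ℝ → ℝ := fun V t => cov (ev P t) V with hψ
  have hpoly : ∀ V : Submodule ℚ (ι → ℚ), ∀ i, ∃ p : ℝ[X], p.natDegree ≤ N * D ∧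
      ∀ t, mnr (ev P t * rm (mr V)) i = p.eval t := by
    intro V i
    obtain ⟨p, hp1, hp2⟩ := mnr_poly D P hP (mr V) i
    refine ⟨p, hp1.trans ?_, hp2⟩
    have : Module.finrank ℚ V ≤ Module.finrank ℚ (ι → ℚ) := Submodule.finrank_le V
    rw [Module.finrank_fintype_fun_eq_card] at this
    exact Nat.mul_le_mul_right D this
  have hcont : ∀ V, Continuous (ψ V) := by
    intro V
    have h1 : Continuous (fun t => mnr (ev P t * rm (mr V))) := by
      refine continuous_pi fun i => ?_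
      obtain ⟨p, _, hp⟩ := hpoly V i
      simp_rw [hp]
      exact p.continuous
    exact h1.norm
  have hgood : ∀ V, ∀ c d : ℝ, c < d → (∃ t ∈ Icc c d, κ' ≤ ψ V t) →
      volume {t ∈ Icc c d | ψ V t < ε'} ≤ ENNReal.ofReal η * volume (Icc c d) := by
    intro V c d hcd ⟨t0, ht0, hκt0⟩
    obtain ⟨i, hi⟩ : ∃ i, κ' ≤ |mnr (ev P t0 * rm (mr V)) i| := by
      by_contra hcon
      push Not at hcon
      have : ‖mnr (ev P t0 * rm (mr V))‖ < κ' := (pi_norm_lt_iff hκ'0).2 hcon
      exact absurd hκt0 (not_le.2 this)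
    obtain ⟨p, hp1, hp2⟩ := hpoly V i
    have h1 := hrem p hp1 c d t0 hcd ht0
    rw [Real.volume_Icc, ← ENNReal.ofReal_mul hη0.le]
    refine (measure_mono ?_).trans h1
    rintro t ⟨ht, htε⟩
    refine ⟨ht, ?_⟩
    rw [← hp2, ← hp2]
    calc |mnr (ev P t * rm (mr V)) i| ≤ ‖mnr (ev P t * rm (mr V))‖ :=
          norm_le_pi_norm (mnr (ev P t * rm (mr V))) i
      _ < ε' := htε
      _ ≤ c0 * |mnr (ev P t0 * rm (mr V)) i| := by
          rw [hε']
          exact mul_le_mul (min_le_left _ _) hi hκ'0.le hc0.le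
  have hkm := Pool.Agent.RT.km (cmpS (ι := ι)) (fun s s' h => h.symm) ψ hcont κ' ε'
    (ENNReal.ofReal η) hgood N {V | V ≠ ⊥} 0 1 one_pos ?_ ?_ ?_
  · have hsub : {τ ∈ Icc (0 : ℝ) 1 | ∃ v : ι → ℤ, v ≠ 0 ∧
        ∀ i, |(ev P τ *ᵥ iv v) i| < ε' / (N + 1)} ⊆
        {t ∈ Icc (0 : ℝ) 1 | ¬ Pool.Agent.RT.Marked cmpS ψ {V | V ≠ ⊥} κ' ε' t} := by
      rintro t ⟨ht, v, hv0, hv⟩
      refine ⟨ht, ?_⟩
      rintro ⟨F, hF1, hF2, hF3, hF4⟩
      have h1 := marked_short (ev P t) ε' κ' hε'κ hκ'1 F hF2 hF3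
        (fun W hW hWF hc => hF4 W hW hWF hc) v hv0
      have h2 : ‖ev P t *ᵥ iv v‖ < ε' / (N + 1) := (pi_norm_lt_iff (by positivity)).2 hv
      rw [lt_div_iff₀ (by positivity)] at h2
      rw [← hN] at h1
      linarith
    refine (measure_mono hsub).trans (hkm.trans ?_)
    rw [Real.volume_Icc, sub_zero, ENNReal.ofReal_one, mul_one, ← ENNReal.ofReal_natCast,
      ← ENNReal.ofReal_mul (by positivity)]
    refine ENNReal.ofReal_le_ofReal ?_
    rw [hη, mul_div_assoc', div_le_iff₀ (by positivity)]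
    nlinarith
  · -- chains
    intro F hF1 hF2
    have hinj : Set.InjOn (fun V : Submodule ℚ (ι → ℚ) => Module.finrank ℚ V) (F : Set _) := by
      intro V hV W hW hVW
      by_contra hne
      rcases hF2 V hV W hW hne with h1 | h1
      · exact hne (Submodule.eq_of_le_of_finrank_eq h1 hVW)
      · exact hne (Submodule.eq_of_le_of_finrank_eq h1 hVW.symm).symm
    have hmaps : ∀ V ∈ F, Module.finrank ℚ V ∈ Finset.Icc 1 N := by
      intro V hV
      rw [Finset.mem_Icc]
      constructor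
      · rw [Nat.one_le_iff_ne_zero]
        intro h0
        exact hF1 V hV (Submodule.finrank_eq_zero.1 h0)
      · have : Module.finrank ℚ V ≤ Module.finrank ℚ (ι → ℚ) := Submodule.finrank_le V
        rw [Module.finrank_fintype_fun_eq_card] at this
        exact this
    have := Finset.card_le_card_of_injOn _ hmaps hinj
    simpa using this
  · -- suprema
    intro V hV
    have hfr1 : 0 < Module.finrank ℚ V := by
      rw [Nat.pos_iff_ne_zero]
      intro h0
      exact hV (Submodule.finrank_eq_zero.1 h0)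
    have hfrN : Module.finrank ℚ V ≤ N := by
      have : Module.finrank ℚ V ≤ Module.finrank ℚ (ι → ℚ) := Submodule.finrank_le V
      rw [Module.finrank_fintype_fun_eq_card] at this
      exact this
    have hminor : ∃ i : Fin (Module.finrank ℚ V) → ι, ((mr V).submatrix i id).det ≠ 0 := by
      by_contra hcon
      push Not at hcon
      apply exists_minor_ne_zero (qm (mr V)) (mr_rep V).li
      ext i
      unfold qm
      rw [mnr_map]
      have h1 : mnr (mr V) i = 0 := hcon i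
      simp [h1]
    rcases lt_or_eq_of_le hfrN with hlt | heq
    · obtain ⟨t, ht, i, hi⟩ := hND _ hfr1 hlt (mr V) hminor
      refine ⟨t, ht, ?_⟩
      calc κ' ≤ κ := min_le_left _ _
        _ ≤ |((ev P t * im (mr V)).submatrix i id).det| := hi
        _ ≤ ‖mnr (ev P t * rm (mr V))‖ := norm_le_pi_norm (mnr (ev P t * rm (mr V))) i
    · -- full rank
      refine ⟨0, ⟨le_rfl, zero_le_one⟩, ?_⟩
      refine hκ'1.trans ?_
      have heq' : Fintype.card (Fin (Module.finrank ℚ V)) = Fintype.card ι := by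
        rw [Fintype.card_fin, heq]
      let e : Fin (Module.finrank ℚ V) ≃ ι := Fintype.equivOfCardEq heq'
      have h1 : mnr (ev P 0 * rm (mr V)) e = mnr (rm (mr V)) e := by
        unfold mnr
        have h2 : (ev P 0 * rm (mr V)).submatrix e id =
            ((ev P 0).submatrix e e) * ((rm (mr V)).submatrix e id) := by
          rw [Matrix.submatrix_mul_equiv]
        rw [h2, Matrix.det_mul, Matrix.det_submatrix_equiv_self, hdet, one_mul]
      have h3 : mnr (mr V) e ≠ 0 := by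
        intro h0
        obtain ⟨i, hi⟩ := hminor
        apply hi
        have h4 : (mr V).submatrix i id = (1 : Matrix ι ι ℤ).submatrix i e *
            (mr V).submatrix e id := by
          rw [Matrix.submatrix_mul_equiv, Matrix.one_mul]
        have h5 : ((mr V).submatrix e id).det = 0 := h0
        rw [h4, Matrix.det_mul, h5, mul_zero]
      have h4 : ((mnr (mr V) e : ℤ) : ℝ) = mnr (rm (mr V)) e := by
        unfold rm
        rw [mnr_map]
        rfl
      calc (1 : ℝ) ≤ |((mnr (mr V) e : ℤ) : ℝ)| := by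
            rw [← Int.cast_abs]
            exact_mod_cast Int.one_le_abs h3
        _ = |mnr (ev P 0 * rm (mr V)) e| := by rw [h1, h4]
        _ ≤ ‖mnr (ev P 0 * rm (mr V))‖ := norm_le_pi_norm (mnr (ev P 0 * rm (mr V))) e
  · intro t ht
    refine (finite_cov (ev P t) (hdet t) κ').subset ?_
    intro V hV
    exact hV.2

end QL
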