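import Pool.Agent.Helper27_QL.Stmt
import Pool.Agent.Helper96_QL.NonDiv

/-!
Modules M1, M2, M3 of the blueprint `Pool/Agent/Helper27_QL/PLAN.md` in the form of `Stmt.lean`:
`remez`, `Jc_spec`, `cover_two`, `cover_bound`, `nondiv`.
-/

set_option autoImplicit false
open Matrix Polynomial MeasureTheory Set Filter Topology

namespace QL.H96

/-- among three order connected sets with a common point one is contained in the union of the
other two -/
theorem three_oc {κ : Type} (I : κ → Set ℝ) (hc : ∀ a, (I a).OrdConnected) (i j k : κ) (t : ℝ)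
    (hi : t ∈ I i) (hj : t ∈ I j) (hk : t ∈ I k)
    (hij : i ≠ j) (hik : i ≠ k) (hjk : j ≠ k) :
    ∃ x ∈ ({i, j, k} : Set κ), I x ⊆ ⋃ y ∈ (({i, j, k} : Set κ) \ {x}), I y := by
  by_contra hcon
  push Not at hcon
  have mi : i ∈ ({i, j, k} : Set κ) := by simp
  have mj : j ∈ ({i, j, k} : Set κ) := by simp
  have mk : k ∈ ({i, j, k} : Set κ) := by simp
  have h1 : ∀ x ∈ ({i, j, k} : Set κ), ∃ p ∈ I x, ∀ y ∈ ({i, j, k} : Set κ), y ≠ x → p ∉ I y := by
    intro x hx
    have := hcon x hx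
    rw [Set.not_subset] at this
    obtain ⟨p, hp, hp'⟩ := this
    refine ⟨p, hp, fun y hy hyx hpy => hp' ?_⟩
    exact mem_biUnion (show y ∈ _ from ⟨hy, hyx⟩) hpy
  choose! p hp1 hp2 using h1
  have htx : ∀ x ∈ ({i, j, k} : Set κ), t ∈ I x := by
    rintro x (rfl | rfl | rfl)
    exacts [hi, hj, hk]
  -- two points on the same side of t give a contradiction
  have key : ∀ x ∈ ({i, j, k} : Set κ), ∀ y ∈ ({i, j, k} : Set κ), x ≠ y →
      (t ≤ p x ∧ t ≤ p y) ∨ (p x ≤ t ∧ p y ≤ t) → False := by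
    intro x hx y hy hxy h
    rcases h with ⟨h1, h2⟩ | ⟨h1, h2⟩
    · rcases le_total (p x) (p y) with h3 | h3
      · exact hp2 x hx y hy hxy.symm ((hc y).out (htx y hy) (hp1 y hy) ⟨h1, h3⟩)
      · exact hp2 y hy x hx hxy ((hc x).out (htx x hx) (hp1 x hx) ⟨h2, h3⟩)
    · rcases le_total (p x) (p y) with h3 | h3
      · exact hp2 y hy x hx hxy ((hc x).out (hp1 x hx) (htx x hx) ⟨h3, h2⟩)
      · exact hp2 x hx y hy hxy.symm ((hc y).out (hp1 y hy) (htx y hy) ⟨h3, h1⟩)
  rcases le_total t (p i) with h1 | h1 <;> rcases le_total t (p j) with h2 | h2 <;>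
  rcases le_total t (p k) with h3 | h3 <;>
  first
  | exact key i mi j mj hij (Or.inl ⟨h1, h2⟩)
  | exact key i mi k mk hik (Or.inl ⟨h1, h3⟩)
  | exact key j mj k mk hjk (Or.inl ⟨h2, h3⟩)
  | exact key i mi j mj hij (Or.inr ⟨h1, h2⟩)
  | exact key i mi k mk hik (Or.inr ⟨h1, h3⟩)
  | exact key j mj k mk hjk (Or.inr ⟨h2, h3⟩)

/-- thinning of a finite family of order connected sets -/
theorem exists_thin {κ : Type} [DecidableEq κ] (I : κ → Set ℝ) (hc : ∀ a, (I a).OrdConnected)
    (T : Finset κ) :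
    ∃ T' : Finset κ, T' ⊆ T ∧ (⋃ x ∈ T, I x) ⊆ (⋃ x ∈ T', I x) ∧
      ∀ t : ℝ, ∀ F : Finset κ, F ⊆ T' → (∀ x ∈ F, t ∈ I x) → F.card ≤ 2 := by
  classical
  let P : ℕ → Prop := fun n => ∃ T' : Finset κ, T' ⊆ T ∧ T'.card = n ∧
    (⋃ x ∈ T, I x) ⊆ (⋃ x ∈ T', I x)
  have hP : ∃ n, P n := ⟨T.card, T, Finset.Subset.refl _, rfl, Subset.rfl⟩
  obtain ⟨T', hT', hcard, hcov⟩ := Nat.find_spec hP
  refine ⟨T', hT', hcov, ?_⟩
  intro t F hF hFt
  by_contra hcon
  push Not at hcon
  obtain ⟨i, j, k, hi, hj, hk, hij, hik, hjk⟩ := Finset.two_lt_card_iff.1 hcon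
  obtain ⟨x, hx, hxsub⟩ := three_oc I hc i j k t (hFt i hi) (hFt j hj) (hFt k hk) hij hik hjk
  have hxT : x ∈ T' := by
    rcases hx with rfl | rfl | rfl
    exacts [hF hi, hF hj, hF hk]
  have hmem : ∀ y ∈ (({i, j, k} : Set κ) \ {x}), y ∈ T'.erase x := by
    rintro y ⟨hy, hyx⟩
    rw [Finset.mem_erase]
    refine ⟨hyx, ?_⟩
    rcases hy with rfl | rfl | rfl
    exacts [hF hi, hF hj, hF hk]
  have hlt : (T'.erase x).card < Nat.find hP := by
    rw [← hcard]; exact Finset.card_erase_lt_of_mem hxT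
  refine Nat.find_min hP hlt ⟨T'.erase x, (Finset.erase_subset _ _).trans hT', rfl, ?_⟩
  refine hcov.trans ?_
  intro s hs
  rw [mem_iUnion₂] at hs
  obtain ⟨y, hy, hys⟩ := hs
  by_cases hyx : y = x
  · subst hyx
    have := hxsub hys
    rw [mem_iUnion₂] at this
    obtain ⟨z, hz, hzs⟩ := this
    exact mem_biUnion (show z ∈ T'.erase y from hmem z hz) hzs
  · exact mem_biUnion (show y ∈ T'.erase x from Finset.mem_erase.2 ⟨hyx, hy⟩) hys

/-- total length of a family of sets of multiplicity at most two -/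
theorem sum_vol {κ : Type} (I : κ → Set ℝ) (T : Finset κ) (a b : ℝ)
    (hm : ∀ x, MeasurableSet (I x))
    (hsub : ∀ x ∈ T, I x ⊆ Icc a b)
    (hmul : ∀ t : ℝ, ∀ F : Finset κ, F ⊆ T → (∀ x ∈ F, t ∈ I x) → F.card ≤ 2) :
    ∑ x ∈ T, volume (I x) ≤ 2 * ENNReal.ofReal (b - a) := by
  classical
  have h1 : ∀ x, volume (I x) = ∫⁻ t, (I x).indicator (fun _ => (1 : ENNReal)) t := by
    intro x
    rw [lintegral_indicator (hm x)]; simp
  simp_rw [h1]
  rw [← lintegral_finsetSum _ (fun x _ => (measurable_const.indicator (hm x)))]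
  calc ∫⁻ t, ∑ x ∈ T, (I x).indicator (fun _ => (1 : ENNReal)) t
      ≤ ∫⁻ t, (Icc a b).indicator (fun _ => (2 : ENNReal)) t := by
        refine lintegral_mono fun t => ?_
        simp only [Set.indicator_apply]
        rw [Finset.sum_ite]
        simp only [Finset.sum_const, nsmul_eq_mul, mul_one, smul_zero, add_zero]
        by_cases ht : t ∈ Icc a b
        · rw [if_pos ht]
          exact_mod_cast hmul t _ (Finset.filter_subset _ _)
            (fun x hx => (Finset.mem_filter.1 hx).2)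
        · rw [if_neg ht]
          have : T.filter (fun x => t ∈ I x) = ∅ := by
            rw [Finset.filter_eq_empty_iff]
            intro x hx hxt
            exact ht (hsub x hx hxt)
          rw [this]; simp
    _ = 2 * ENNReal.ofReal (b - a) := by
        rw [lintegral_indicator measurableSet_Icc]; simp

end QL.H96

namespace QL
open QL.H96

theorem remez' : remezStatement := fun D η hη => remez D η hη

theorem nondiv' : nondivStatement := fun ι _ _ D κ ε hκ hε => nondiv ι D κ ε hκ hε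

theorem cover_two : cover_twoStatement := by
  intro κ α β K hK hKs I hI hc hcov
  classical
  choose V hVo hV using hI
  obtain ⟨T, hT⟩ := hK.elim_finite_subcover V hVo (by
    intro t ht
    obtain ⟨a, ha⟩ := mem_iUnion.1 (hcov ht)
    refine mem_iUnion.2 ⟨a, ?_⟩
    rw [hV a] at ha
    exact ha.1)
  have hTK : K ⊆ ⋃ a ∈ T, I a := by
    intro t ht
    obtain ⟨a, ha, hta⟩ := mem_iUnion₂.1 (hT ht)
    refine mem_biUnion (show a ∈ T from ha) ?_
    rw [hV a]
    exact ⟨hta, hKs ht⟩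
  obtain ⟨T', hT', hcov', hmul⟩ := exists_thin I hc T
  refine ⟨T', hTK.trans hcov', ?_⟩
  refine sum_vol I T' α β ?_ ?_ hmul
  · intro x
    rw [hV x]
    exact (hVo x).measurableSet.inter measurableSet_Icc
  · intro x _
    rw [hV x]
    exact inter_subset_right

theorem cover_bound : cover_boundStatement := by
  intro α β J hJ ε hε h
  classical
  choose! I hτI hI hc hvol using h
  choose! V hVo hV using hI
  by_cases hJne : J.Nonempty
  · obtain ⟨T, hTc, hTcov⟩ := TopologicalSpace.isOpen_iUnion_countable (fun x : J => V x.1)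
      (fun x => hVo x.1 x.2)
    have hmemV : ∀ x ∈ J, x ∈ V x := by
      intro x hx
      have := hτI x hx
      rw [hV x hx] at this
      exact this.1
    have hTne : T.Nonempty := by
      obtain ⟨x, hx⟩ := hJne
      have h1 : x ∈ ⋃ x : J, V x.1 := mem_iUnion.2 ⟨⟨x, hx⟩, hmemV x hx⟩
      rw [← hTcov] at h1
      obtain ⟨y, hy, _⟩ := mem_iUnion₂.1 h1
      exact ⟨y, hy⟩
    obtain ⟨f, hf⟩ := hTc.exists_eq_range hTne
    have hJsub : J ⊆ ⋃ n : ℕ, (J ∩ I (f n).1) := by
      intro t ht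
      have h1 : t ∈ ⋃ x : J, V x.1 := mem_iUnion.2 ⟨⟨t, ht⟩, hmemV t ht⟩
      rw [← hTcov] at h1
      obtain ⟨y, hy, hty⟩ := mem_iUnion₂.1 h1
      rw [hf] at hy
      obtain ⟨n, rfl⟩ := hy
      refine mem_iUnion.2 ⟨n, ht, ?_⟩
      rw [hV _ (f n).2]
      exact ⟨hty, hJ ht⟩
    refine (measure_mono hJsub).trans ?_
    rw [measure_iUnion_eq_iSup_accumulate]
    refine iSup_le fun n => ?_
    obtain ⟨T', hT', hcov, hmul⟩ := exists_thin (fun k : ℕ => I (f k).1)
      (fun k => hc _ (f k).2) (Finset.range (n + 1))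
    have hacc : accumulate (fun n : ℕ => (J ∩ I (f n).1)) n ⊆ ⋃ k ∈ T', (J ∩ I (f k).1) := by
      intro t ht
      rw [mem_accumulate] at ht
      obtain ⟨k, hk, htk⟩ := ht
      have h1 : t ∈ ⋃ x ∈ Finset.range (n + 1), I (f x).1 :=
        mem_biUnion (show k ∈ Finset.range (n + 1) from Finset.mem_range.2 (by omega)) htk.2
      obtain ⟨j, hj, htj⟩ := mem_iUnion₂.1 (hcov h1)
      exact mem_biUnion (show j ∈ T' from hj) ⟨htk.1, htj⟩
    calc volume (accumulate (fun n : ℕ => (J ∩ I (f n).1)) n)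
        ≤ volume (⋃ k ∈ T', (J ∩ I (f k).1)) := measure_mono hacc
      _ ≤ ∑ k ∈ T', volume (J ∩ I (f k).1) := measure_biUnion_finset_le _ _
      _ ≤ ∑ k ∈ T', ENNReal.ofReal ε * volume (I (f k).1) :=
        Finset.sum_le_sum fun k _ => hvol _ (f k).2
      _ = ENNReal.ofReal ε * ∑ k ∈ T', volume (I (f k).1) := by rw [Finset.mul_sum]
      _ ≤ ENNReal.ofReal ε * (2 * ENNReal.ofReal (β - α)) := by
        gcongr
        refine sum_vol (fun k : ℕ => I (f k).1) T' α β ?_ ?_ hmul
        · intro k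
          rw [hV _ (f k).2]
          exact (hVo _ (f k).2).measurableSet.inter measurableSet_Icc
        · intro k _
          rw [hV _ (f k).2]
          exact inter_subset_right
      _ = ENNReal.ofReal (2 * ε) * ENNReal.ofReal (β - α) := by
        rw [ENNReal.ofReal_mul zero_le_two]
        simp only [ENNReal.ofReal_ofNat]
        ring
  · rw [Set.not_nonempty_iff_eq_empty] at hJne
    rw [hJne]; simp

theorem Jc_spec : Jc_specStatement := by
  intro O hO α β τ τ0 hτ h0 h0'
  have hself : τ ∈ Jc O α β τ := self_mem_ordConnectedComponent.2 hτ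
  have hsub : Jc O α β τ ⊆ O ∩ Icc α β := ordConnectedComponent_subset
  have heq : ∀ τ' ∈ Jc O α β τ, Jc O α β τ' = Jc O α β τ := by
    intro τ' hτ'
    exact (ordConnectedComponent_eq (mem_ordConnectedComponent.1 hτ')).symm
  have hV : IsOpen (ordConnectedComponent O τ) ∧
      Jc O α β τ = ordConnectedComponent O τ ∩ Icc α β := by
    constructor
    · rw [isOpen_iff_mem_nhds]
      intro y hy
      rw [ordConnectedComponent_eq (mem_ordConnectedComponent.1 hy)]
      exact ordConnectedComponent_mem_nhds.2 (hO.mem_nhds (ordConnectedComponent_subset hy))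
    · ext y
      constructor
      · intro hy
        have h1 := mem_ordConnectedComponent.1 hy
        exact ⟨mem_ordConnectedComponent.2 (h1.trans inter_subset_left), (hsub hy).2⟩
      · rintro ⟨h1, h2⟩
        refine mem_ordConnectedComponent.2 (subset_inter (mem_ordConnectedComponent.1 h1) ?_)
        rw [← uIcc_of_le (h2.1.trans h2.2)]
        refine uIcc_subset_uIcc ?_ ?_
        · rw [uIcc_of_le (h2.1.trans h2.2)]; exact hτ.2
        · rw [uIcc_of_le (h2.1.trans h2.2)]; exact h2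
  have hoc : (Jc O α β τ).OrdConnected := by
    unfold Jc
    infer_instance
  refine ⟨hself, hsub, ⟨_, hV.1, hV.2⟩, heq, ?_⟩
  set J := Jc O α β τ with hJ
  have hJne : J.Nonempty := ⟨τ, hself⟩
  have hbb : BddBelow J := ⟨α, fun y hy => (hsub hy).2.1⟩
  have hba : BddAbove J := ⟨β, fun y hy => (hsub hy).2.2⟩
  have hαa : α ≤ sInf J := le_csInf hJne fun y hy => (hsub hy).2.1
  have hbβ : sSup J ≤ β := csSup_le hJne fun y hy => (hsub hy).2.2
  have haτ : sInf J ≤ τ := csInf_le hbb hself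
  have hτb : τ ≤ sSup J := le_csSup hba hself
  have hJab : J ⊆ Icc (sInf J) (sSup J) := fun y hy => ⟨csInf_le hbb hy, le_csSup hba hy⟩
  have hab : Ioo (sInf J) (sSup J) ⊆ J := by
    intro y hy
    obtain ⟨z, hz, hzy⟩ := exists_lt_of_csInf_lt hJne hy.1
    obtain ⟨z', hz', hzy'⟩ := exists_lt_of_lt_csSup hJne hy.2
    exact hoc.out hz hz' ⟨hzy.le, hzy'.le⟩
  have hne : τ0 ≠ τ := by
    rintro rfl
    exact h0' hτ.1
  -- small neighbourhoods
  have hnbhd : ∀ y ∈ J, ∃ r > 0, ∀ z ∈ Icc α β, |z - y| < r → z ∈ J := by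
    intro y hy
    rw [hV.2] at hy
    obtain ⟨r, hr, hball⟩ := Metric.isOpen_iff.1 hV.1 y hy.1
    refine ⟨r, hr, fun z hz hzy => ?_⟩
    rw [hV.2]
    exact ⟨hball (by rwa [Metric.mem_ball, Real.dist_eq]), hz⟩
  rcases lt_or_gt_of_ne hne with hlt | hgt
  · -- τ0 < τ
    have h1 : ∀ y ∈ J, τ0 < y := by
      intro y hy
      by_contra hcon
      push Not at hcon
      exact h0' (hsub (hoc.out hy hself ⟨hcon, hlt.le⟩)).1
    have h2 : τ0 ≤ sInf J := le_csInf hJne fun y hy => (h1 y hy).le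
    have hltJ : sInf J < τ := by
      obtain ⟨r, hr, hball⟩ := hnbhd τ hself
      have h3 : max τ0 (τ - r / 2) ∈ J := by
        refine hball _ ⟨h0.1.trans (le_max_left _ _), max_le h0.2 (by linarith [hτ.2.2])⟩ ?_
        rw [abs_lt]
        constructor
        · have := le_max_right τ0 (τ - r / 2); linarith
        · have : max τ0 (τ - r / 2) ≤ τ := max_le hlt.le (by linarith)
          linarith
      refine lt_of_le_of_lt (csInf_le hbb h3) (max_lt hlt (by linarith))
    refine ⟨sInf J, sSup J, sInf J, lt_of_lt_of_le hltJ hτb, ⟨le_rfl, haτ.trans hτb⟩,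
      ⟨hαa, (haτ.trans hτb).trans hbβ⟩, ?_, hab, hJab, Icc_subset_Icc hαa hbβ⟩
    intro haO
    have h3 : sInf J ≠ τ0 := by
      intro h; rw [h] at haO; exact h0' haO
    have h4 : τ0 < sInf J := lt_of_le_of_ne h2 h3.symm
    have haJ : sInf J ∈ J := by
      rw [hJ]
      refine mem_ordConnectedComponent.2 ?_
      rw [uIcc_of_ge haτ]
      intro y hy
      rcases eq_or_lt_of_le hy.1 with h | h
      · rw [← h]; exact ⟨haO, hαa, (haτ.trans hτb).trans hbβ⟩
      · obtain ⟨z, hz, hzy⟩ := exists_lt_of_csInf_lt hJne h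
        exact hsub (hoc.out hz hself ⟨hzy.le, hy.2⟩)
    obtain ⟨r, hr, hball⟩ := hnbhd _ haJ
    have h5 : max τ0 (sInf J - r / 2) ∈ J := by
      refine hball _ ⟨h0.1.trans (le_max_left _ _), max_le h0.2
        (by linarith [(haτ.trans hτb).trans hbβ])⟩ ?_
      rw [abs_lt]
      constructor
      · have := le_max_right τ0 (sInf J - r / 2); linarith
      · have : max τ0 (sInf J - r / 2) ≤ sInf J := max_le h2 (by linarith)
        linarith
    have h6 := csInf_le hbb h5
    have h7 : max τ0 (sInf J - r / 2) < sInf J := max_lt h4 (by linarith)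
    linarith
  · -- τ < τ0
    have h1 : ∀ y ∈ J, y < τ0 := by
      intro y hy
      by_contra hcon
      push Not at hcon
      exact h0' (hsub (hoc.out hself hy ⟨hgt.le, hcon⟩)).1
    have h2 : sSup J ≤ τ0 := csSup_le hJne fun y hy => (h1 y hy).le
    have hltJ : τ < sSup J := by
      obtain ⟨r, hr, hball⟩ := hnbhd τ hself
      have h3 : min τ0 (τ + r / 2) ∈ J := by
        refine hball _ ⟨le_min h0.1 (by linarith [hτ.2.1]), (min_le_left _ _).trans h0.2⟩ ?_
        rw [abs_lt]
        constructor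
        · have : τ ≤ min τ0 (τ + r / 2) := le_min hgt.le (by linarith)
          linarith
        · have := min_le_right τ0 (τ + r / 2); linarith
      refine lt_of_lt_of_le (lt_min hgt (by linarith)) (le_csSup hba h3)
    refine ⟨sInf J, sSup J, sSup J, lt_of_le_of_lt haτ hltJ, ⟨haτ.trans hτb, le_rfl⟩,
      ⟨hαa.trans (haτ.trans hτb), hbβ⟩, ?_, hab, hJab, Icc_subset_Icc hαa hbβ⟩
    intro hbO
    have h3 : sSup J ≠ τ0 := by
      intro h; rw [h] at hbO; exact h0' hbO
    have h4 : sSup J < τ0 := lt_of_le_of_ne h2 h3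
    have hbJ : sSup J ∈ J := by
      rw [hJ]
      refine mem_ordConnectedComponent.2 ?_
      rw [uIcc_of_le hτb]
      intro y hy
      rcases eq_or_lt_of_le hy.2 with h | h
      · rw [h]; exact ⟨hbO, hαa.trans (haτ.trans hτb), hbβ⟩
      · obtain ⟨z, hz, hzy⟩ := exists_lt_of_lt_csSup hJne h
        exact hsub (hoc.out hself hz ⟨hy.1, hzy.le⟩)
    obtain ⟨r, hr, hball⟩ := hnbhd _ hbJ
    have h5 : min τ0 (sSup J + r / 2) ∈ J := by
      refine hball _ ⟨le_min h0.1 (by linarith [hαa.trans (haτ.trans hτb)]),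
        (min_le_left _ _).trans h0.2⟩ ?_
      rw [abs_lt]
      constructor
      · have : sSup J ≤ min τ0 (sSup J + r / 2) := le_min h2 (by linarith)
        linarith
      · have := min_le_right τ0 (sSup J + r / 2); linarith
    have h6 := le_csSup hba h5
    have h7 : sSup J < min τ0 (sSup J + r / 2) := lt_min h4 (by linarith)
    linarith

end QL
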