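import Pool.Agent.Helper27_QL.Stmt

/-!
Module `pairdeg` (from `app3`) of the blueprint `Pool/Agent/Helper27_QL/PLAN.md`.
-/

set_option autoImplicit false
open Matrix Polynomial MeasureTheory Set Filter Topology

namespace QL.H96

theorem prm_comp {ι κ : Type} [Fintype ι] [Fintype κ] (e : ι ≃ κ) {v : κ → ℝ}
    (hv : v ∈ Prm κ) : v ∘ e ∈ Prm ι := by
  classical
  obtain ⟨w, hw, hvw⟩ := hv
  refine ⟨w ∘ e, ?_, fun i => hvw (e i)⟩
  rw [← hw, ← Finset.gcd_image, Finset.image_univ_equiv]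

theorem quad_comp {ι κ : Type} [Fintype ι] [Fintype κ] (e : ι ≃ κ) (Q : Matrix ι ι ℝ)
    (v w : κ → ℝ) : (v ∘ e) ⬝ᵥ Q *ᵥ (w ∘ e) = v ⬝ᵥ (Q.submatrix e.symm e.symm) *ᵥ w := by
  simp only [dotProduct, mulVec, Matrix.submatrix_apply, Function.comp_apply]
  rw [← e.sum_comp (fun i => v i * ∑ j, Q (e.symm i) (e.symm j) * w j)]
  refine Finset.sum_congr rfl fun i _ => ?_
  rw [← e.sum_comp (fun j => Q (e.symm (e i)) (e.symm j) * w j)]
  simp

theorem lin_comp {ι κ : Type} [Fintype ι] [Fintype κ] (e : ι ≃ κ) (L : ι → ℝ)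
    (v : κ → ℝ) : L ⬝ᵥ (v ∘ e) = (L ∘ e.symm) ⬝ᵥ v := by
  simp only [dotProduct, Function.comp_apply]
  rw [← e.sum_comp (fun i => L (e.symm i) * v i)]
  simp

theorem dense_comp {ι κ : Type} [Fintype ι] [Fintype κ] (e : ι ≃ κ) (Q : Matrix ι ι ℝ)
    (L : ι → ℝ)
    (h : Dense {y : ℝ × ℝ | ∃ v ∈ Prm κ, y = val (Q.submatrix e.symm e.symm, L ∘ e.symm) v}) :
    Dense {y : ℝ × ℝ | ∃ v ∈ Prm ι, y = val (Q, L) v} := by
  refine h.mono ?_
  rintro y ⟨v, hv, rfl⟩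
  refine ⟨v ∘ e, prm_comp e hv, ?_⟩
  simp only [val]
  rw [quad_comp, lin_comp]

theorem cond2_comp {ι κ : Type} [Fintype ι] [Fintype κ] (e : ι ≃ κ) (Q : Matrix ι ι ℝ)
    (L : ι → ℝ) (h : Cond2 Q L) : Cond2 (Q.submatrix e.symm e.symm) (L ∘ e.symm) := by
  rintro α β hαβ ⟨c, B, hB⟩
  refine h α β hαβ ⟨c, B.submatrix e e, ?_⟩
  ext i j
  have := congrFun (congrFun hB (e i)) (e j)
  simpa [Matrix.vecMulVec_apply] using this

/-- scaling argument: the pair in the normal form coordinates -/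
theorem core (h3 : app3Statement) (d : ℕ) (hd : 2 ≤ d) (B : Matrix (Fin d) (Fin d) ℝ)
    (hB : B = 1 ∨ (d = 2 ∧ ∀ i j, B i j = if i = j then 0 else 1))
    (Q : Matrix (Fin d ⊕ Fin 2) (Fin d ⊕ Fin 2) ℝ) (L : Fin d ⊕ Fin 2 → ℝ)
    (g0 : Matrix (Fin d ⊕ Fin 2) (Fin d ⊕ Fin 2) ℝ) (hdet : 0 < g0.det)
    (hQ : Q = g0ᵀ * QB B * g0) (hL : L = LB d ᵥ* g0) (h2 : Cond2 Q L) :
    Dense {y : ℝ × ℝ | ∃ v ∈ Prm (Fin d ⊕ Fin 2), y = val (Q, L) v} := by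
  set N : ℕ := Fintype.card (Fin d ⊕ Fin 2) with hN
  have hN0 : N ≠ 0 := by
    rw [hN]; simp
  set lam : ℝ := g0.det ^ ((N : ℝ)⁻¹) with hlam
  have hlam0 : 0 < lam := Real.rpow_pos_of_pos hdet _
  have hlamN : lam ^ N = g0.det := Real.rpow_inv_natCast_pow hdet.le hN0
  obtain ⟨g, hg⟩ : ∃ g : Matrix (Fin d ⊕ Fin 2) (Fin d ⊕ Fin 2) ℝ, g = lam⁻¹ • g0 := ⟨_, rfl⟩
  have hg0 : g0 = lam • g := by
    rw [hg, smul_smul, mul_inv_cancel₀ hlam0.ne', one_smul]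
  have hgdet : g.det = 1 := by
    rw [hg, Matrix.det_smul, ← hN, inv_pow, hlamN, inv_mul_cancel₀ hdet.ne']
  have hQg : Q = lam ^ 2 • (gᵀ * QB B * g) := by
    rw [hQ, hg0, Matrix.transpose_smul, Matrix.smul_mul, Matrix.smul_mul, Matrix.mul_smul,
      smul_smul, sq]
  have hLg : L = lam • (LB d ᵥ* g) := by
    rw [hL, hg0, Matrix.vecMul_smul]
  have hdense := h3 d hd B hB g hgdet ?_ ?_
  · have hcont : Continuous (fun y : ℝ × ℝ => (lam ^ 2 * y.1, lam * y.2)) := by fun_prop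
    have hrange : DenseRange (fun y : ℝ × ℝ => (lam ^ 2 * y.1, lam * y.2)) := by
      refine Function.Surjective.denseRange ?_
      rintro ⟨a, b⟩
      refine ⟨((lam ^ 2)⁻¹ * a, lam⁻¹ * b), ?_⟩
      simp only [Prod.mk.injEq]
      constructor
      · rw [← mul_assoc, mul_inv_cancel₀ (by positivity), one_mul]
      · rw [← mul_assoc, mul_inv_cancel₀ (by positivity), one_mul]
    refine (hrange.dense_image hcont hdense).mono ?_
    rintro _ ⟨_, ⟨v, hv, rfl⟩, rfl⟩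
    refine ⟨v, hv, ?_⟩
    simp only [val, Prod.mk.injEq]
    constructor
    · rw [hQg, Matrix.smul_mulVec, dotProduct_smul, smul_eq_mul]
      congr 1
      rw [← Matrix.mulVec_mulVec, ← Matrix.mulVec_mulVec, Matrix.dotProduct_mulVec v gᵀ,
        Matrix.vecMul_transpose]
    · rw [hLg, smul_dotProduct, smul_eq_mul]
      congr 1
      rw [← Matrix.dotProduct_mulVec]
  · rintro w hw ⟨c, hc⟩
    have hc0 : c ≠ 0 := by
      rintro rfl
      apply hw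
      ext i
      have := congrFun hc i
      simpa [iv] using this
    refine h2 0 1 (by simp) ⟨(lam * c⁻¹) ^ 2, Matrix.vecMulVec (fun i => (w i : ℚ))
      (fun i => (w i : ℚ)), ?_⟩
    have hL' : L = (lam * c⁻¹) • iv w := by
      rw [hc, hLg, smul_smul, mul_assoc, inv_mul_cancel₀ hc0, mul_one]
    rw [zero_smul, one_smul, zero_add, hL']
    ext i j
    simp only [Matrix.vecMulVec_apply, Pi.smul_apply, smul_eq_mul, iv, Matrix.smul_apply,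
      Matrix.map_apply, Rat.cast_mul, Rat.cast_intCast]
    ring
  · rintro R hR ⟨a, b, hab⟩
    have hne : (a, b) ≠ (0, 0) := by
      rintro h0
      rw [Prod.mk.injEq] at h0
      apply hR
      ext i j
      have := congrFun (congrFun hab i) j
      rw [h0.1, h0.2] at this
      simpa [im] using this
    refine h2 (a / lam ^ 2) (b / lam ^ 2) ?_ ⟨1, R.map (fun m : ℤ => (m : ℚ)), ?_⟩
    · intro h0
      rw [Prod.mk.injEq] at h0
      apply hne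
      rw [Prod.mk.injEq]
      constructor
      · have := h0.1
        rwa [div_eq_zero_iff, or_iff_left (by positivity)] at this
      · have := h0.2
        rwa [div_eq_zero_iff, or_iff_left (by positivity)] at this
    · have h1 : im R = (a / lam ^ 2) • Q + (b / lam ^ 2) • Matrix.vecMulVec L L := by
        rw [hab, hQg, smul_smul, div_mul_cancel₀ _ (by positivity)]
        congr 1
        ext i j
        rw [hLg]
        simp only [Matrix.vecMulVec_apply, Pi.smul_apply, smul_eq_mul, Matrix.smul_apply]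
        field_simp
      rw [← h1, one_smul]
      ext i j
      simp [im]

/-- the sign of the determinant can be corrected -/
theorem core' (h3 : app3Statement) (d : ℕ) (hd : 2 ≤ d) (B : Matrix (Fin d) (Fin d) ℝ)
    (hB : B = 1 ∨ (d = 2 ∧ ∀ i j, B i j = if i = j then 0 else 1))
    (Q : Matrix (Fin d ⊕ Fin 2) (Fin d ⊕ Fin 2) ℝ) (L : Fin d ⊕ Fin 2 → ℝ)
    (g0 : Matrix (Fin d ⊕ Fin 2) (Fin d ⊕ Fin 2) ℝ) (hdet : g0.det ≠ 0)
    (hQ : Q = g0ᵀ * QB B * g0) (hL : L = LB d ᵥ* g0) (h2 : Cond2 Q L) :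
    Dense {y : ℝ × ℝ | ∃ v ∈ Prm (Fin d ⊕ Fin 2), y = val (Q, L) v} := by
  rcases lt_or_gt_of_ne hdet with hneg | hpos
  · obtain ⟨β, hβ1, hβ2⟩ : ∃ β : Matrix (Fin d) (Fin d) ℝ, βᵀ * B * β = B ∧ β.det = -1 := by
      rcases hB with rfl | ⟨rfl, hB⟩
      · refine ⟨Matrix.diagonal (fun i => if (i : ℕ) = 0 then -1 else 1), ?_, ?_⟩
        · rw [Matrix.diagonal_transpose, Matrix.mul_one, Matrix.diagonal_mul_diagonal]
          ext i j
          simp only [Matrix.diagonal_apply, Matrix.one_apply]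
          split_ifs <;> simp
        · rw [Matrix.det_diagonal]
          obtain ⟨m, rfl⟩ : ∃ m, d = m + 1 := ⟨d - 1, by omega⟩
          rw [Fin.prod_univ_succ]
          simp
      · have hB' : B = !![0, 1; 1, 0] := by
          ext i j
          rw [hB]
          fin_cases i <;> fin_cases j <;> simp
        refine ⟨!![0, 1; 1, 0], ?_, ?_⟩
        · rw [hB']
          ext i j
          fin_cases i <;> fin_cases j <;> simp [Matrix.mul_apply, Fin.sum_univ_two]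
        · simp [Matrix.det_fin_two]
    set σ : Matrix (Fin d ⊕ Fin 2) (Fin d ⊕ Fin 2) ℝ := Matrix.fromBlocks β 0 0 1 with hσ
    have hσQ : σᵀ * QB B * σ = QB B := by
      rw [hσ, QB, Matrix.fromBlocks_transpose, Matrix.fromBlocks_multiply,
        Matrix.fromBlocks_multiply]
      simp [hβ1]
    have hσL : LB d ᵥ* σ = LB d := by
      rw [hσ, LB, Matrix.vecMul_fromBlocks]
      simp
    have hσdet : σ.det = -1 := by
      rw [hσ, Matrix.det_fromBlocks_zero₂₁, hβ2, Matrix.det_one, mul_one]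
    refine core h3 d hd B hB Q L (σ * g0) ?_ ?_ ?_ h2
    · rw [Matrix.det_mul, hσdet]; linarith
    · rw [hQ]
      conv_lhs => rw [← hσQ]
      rw [Matrix.transpose_mul]
      simp only [Matrix.mul_assoc]
    · rw [hL]
      conv_lhs => rw [← hσL]
      rw [Matrix.vecMul_vecMul]
  · exact core h3 d hd B hB Q L g0 hpos hQ hL h2

theorem det_QB (d : ℕ) (B : Matrix (Fin d) (Fin d) ℝ)
    (hB : B = 1 ∨ (d = 2 ∧ ∀ i j, B i j = if i = j then 0 else 1)) : (QB B).det ≠ 0 := by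
  rw [QB, Matrix.det_fromBlocks_zero₂₁]
  refine mul_ne_zero ?_ ?_
  · rcases hB with rfl | ⟨rfl, hB⟩
    · rw [Matrix.det_one]; exact one_ne_zero
    · rw [Matrix.det_fin_two, hB, hB, hB, hB]
      simp
  · rw [Matrix.det_fin_two]
    simp

/-- conclusion from a basis with the right Gram matrix -/
theorem finish (h3 : app3Statement) (n d : ℕ) (hd : 2 ≤ d) (hn : n = d + 2)
    (B : Matrix (Fin d) (Fin d) ℝ)
    (hB : B = 1 ∨ (d = 2 ∧ ∀ i j, B i j = if i = j then 0 else 1))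
    (Q : Matrix (Fin n) (Fin n) ℝ) (hQ : Qᵀ = Q) (L : Fin n → ℝ) (h2 : Cond2 Q L)
    (e f : Fin n → ℝ) (w : Fin d → Fin n → ℝ)
    (he : ∀ x, e ⬝ᵥ Q *ᵥ x = L ⬝ᵥ x / 2) (heL : L ⬝ᵥ e = 0) (hf : L ⬝ᵥ f = 1)
    (hff : f ⬝ᵥ Q *ᵥ f = 0) (hw : ∀ i j, w i ⬝ᵥ Q *ᵥ w j = B i j)
    (hwL : ∀ i, L ⬝ᵥ w i = 0) (hwf : ∀ i, f ⬝ᵥ Q *ᵥ w i = 0) :
    Dense {y : ℝ × ℝ | ∃ v ∈ Prm (Fin n), y = val (Q, L) v} := by
  have hsymm : ∀ x y : Fin n → ℝ, x ⬝ᵥ Q *ᵥ y = y ⬝ᵥ Q *ᵥ x := by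
    intro x y
    rw [Matrix.dotProduct_mulVec, ← Matrix.mulVec_transpose, hQ, dotProduct_comm]
  have hcard : Fintype.card (Fin n) = Fintype.card (Fin d ⊕ Fin 2) := by
    simp [hn]
  let ε : Fin n ≃ Fin d ⊕ Fin 2 := Fintype.equivOfCardEq hcard
  refine dense_comp ε Q L ?_
  have h2' := cond2_comp ε Q L h2
  let b : Fin d ⊕ Fin 2 → Fin n → ℝ := Sum.elim w ![f, e]
  let P : Matrix (Fin d ⊕ Fin 2) (Fin d ⊕ Fin 2) ℝ := Matrix.of fun r c => b c (ε.symm r)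
  have hgram : ∀ c c', b c ⬝ᵥ Q *ᵥ b c' = QB B c c' := by
    rintro (i | i) (j | j)
    · simp only [b, Sum.elim_inl, QB, Matrix.fromBlocks_apply₁₁]
      exact hw i j
    · simp only [b, Sum.elim_inl, Sum.elim_inr, QB, Matrix.fromBlocks_apply₁₂]
      fin_cases j
      · change w i ⬝ᵥ Q *ᵥ f = 0
        rw [hsymm]; exact hwf i
      · change w i ⬝ᵥ Q *ᵥ e = 0
        rw [hsymm, he, hwL]; simp
    · simp only [b, Sum.elim_inl, Sum.elim_inr, QB, Matrix.fromBlocks_apply₂₁]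
      fin_cases i
      · change f ⬝ᵥ Q *ᵥ w j = 0
        exact hwf j
      · change e ⬝ᵥ Q *ᵥ w j = 0
        rw [he, hwL]; simp
    · simp only [b, Sum.elim_inr, QB, Matrix.fromBlocks_apply₂₂]
      fin_cases i <;> fin_cases j
      · change f ⬝ᵥ Q *ᵥ f = 0
        exact hff
      · change f ⬝ᵥ Q *ᵥ e = 1 / 2
        rw [hsymm, he, hf]
      · change e ⬝ᵥ Q *ᵥ f = 1 / 2
        rw [he, hf]
      · change e ⬝ᵥ Q *ᵥ e = 0
        rw [he, heL]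
        simp
  have hPQ : Pᵀ * Q.submatrix ε.symm ε.symm * P = QB B := by
    ext c c'
    rw [← hgram c c']
    have h1 : b c ⬝ᵥ Q *ᵥ b c' =
        ((fun r => P r c) ∘ ε) ⬝ᵥ Q *ᵥ ((fun r => P r c') ∘ ε) := by
      congr 1
      · ext i; simp [P]
      · congr 1
        ext i; simp [P]
    rw [h1, quad_comp, Matrix.mul_assoc]
    rfl
  have hPL : (L ∘ ε.symm) ᵥ* P = LB d := by
    ext c
    have h1 : ((L ∘ ε.symm) ᵥ* P) c = (L ∘ ε.symm) ⬝ᵥ (fun r => P r c) := rfl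
    have h2 : L ⬝ᵥ b c = L ⬝ᵥ ((fun r => P r c) ∘ ε) := by
      congr 1
      ext i; simp [P]
    rw [h1, ← lin_comp, ← h2]
    rcases c with i | i
    · simp only [b, Sum.elim_inl, LB]
      exact hwL i
    · simp only [b, Sum.elim_inr, LB]
      fin_cases i
      · simpa using hf
      · simpa using heL
  have hPdet : P.det ≠ 0 := by
    intro h0
    have := congrArg Matrix.det hPQ
    rw [Matrix.det_mul, h0, mul_zero] at this
    exact det_QB d B hB this.symm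
  have hPu : IsUnit P.det := isUnit_iff_ne_zero.2 hPdet
  refine core' h3 d hd B hB _ _ P⁻¹ ?_ ?_ ?_ h2'
  · exact (Matrix.isUnit_nonsing_inv_det P hPu).ne_zero
  · have hPP : P * P⁻¹ = 1 := Matrix.mul_nonsing_inv P hPu
    have hPP' : P⁻¹ᵀ * Pᵀ = 1 := by rw [← Matrix.transpose_mul, hPP, Matrix.transpose_one]
    rw [← hPQ]
    calc Q.submatrix ε.symm ε.symm = (P⁻¹ᵀ * Pᵀ) * Q.submatrix ε.symm ε.symm * (P * P⁻¹) := by
          rw [hPP, hPP', Matrix.one_mul, Matrix.mul_one]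
      _ = _ := by simp only [Matrix.mul_assoc]
  · have hPP : P * P⁻¹ = 1 := Matrix.mul_nonsing_inv P hPu
    rw [← hPL, Matrix.vecMul_vecMul, hPP, Matrix.vecMul_one]

/-- an orthogonal system adapted to the degenerate pair -/
theorem exists_system (n : ℕ) (Q : Matrix (Fin n) (Fin n) ℝ) (L : Fin n → ℝ)
    (hQ : Qᵀ = Q) (hdet : Q.det ≠ 0) (hL : L ≠ 0)
    (e0 : Fin n → ℝ) (he0 : e0 ≠ 0) (heL : L ⬝ᵥ e0 = 0)
    (he : ∀ k, L ⬝ᵥ k = 0 → e0 ⬝ᵥ Q *ᵥ k = 0) :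
    ∃ (m : ℕ) (e f : Fin n → ℝ) (v : Fin m → Fin n → ℝ) (q : Fin m → ℝ), m + 2 = n ∧
      (∀ x, e ⬝ᵥ Q *ᵥ x = L ⬝ᵥ x / 2) ∧ L ⬝ᵥ e = 0 ∧ L ⬝ᵥ f = 1 ∧ f ⬝ᵥ Q *ᵥ f = 0 ∧
      (∀ i, q i ≠ 0) ∧ (∀ i j, v i ⬝ᵥ Q *ᵥ v j = if i = j then q i else 0) ∧
      (∀ i, L ⬝ᵥ v i = 0) ∧ (∀ i, f ⬝ᵥ Q *ᵥ v i = 0) := by
  have hsymm : ∀ x y : Fin n → ℝ, x ⬝ᵥ Q *ᵥ y = y ⬝ᵥ Q *ᵥ x := by
    intro x y
    rw [Matrix.dotProduct_mulVec, ← Matrix.mulVec_transpose, hQ, dotProduct_comm]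
  obtain ⟨f0, hf0⟩ : ∃ f0 : Fin n → ℝ, L ⬝ᵥ f0 = 1 := by
    obtain ⟨i, hi⟩ := Function.ne_iff.1 hL
    refine ⟨Pi.single i (L i)⁻¹, ?_⟩
    rw [dotProduct_single]
    exact mul_inv_cancel₀ hi
  set c : ℝ := e0 ⬝ᵥ Q *ᵥ f0 with hc
  have hex : ∀ x, e0 ⬝ᵥ Q *ᵥ x = (L ⬝ᵥ x) * c := by
    intro x
    have h1 : L ⬝ᵥ (x - (L ⬝ᵥ x) • f0) = 0 := by
      rw [dotProduct_sub, dotProduct_smul, hf0]; simp
    have h2 := he _ h1
    rw [Matrix.mulVec_sub, dotProduct_sub, Matrix.mulVec_smul, dotProduct_smul, smul_eq_mul] at h2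
    linarith
  have hc0 : c ≠ 0 := by
    intro h0
    apply he0
    have h1 : ∀ x, e0 ⬝ᵥ Q *ᵥ x = 0 := fun x => by rw [hex, h0, mul_zero]
    have h2 : Q *ᵥ e0 = 0 := by
      refine dotProduct_eq_zero _ fun x => ?_
      rw [dotProduct_comm, hsymm]
      exact h1 x
    exact Matrix.eq_zero_of_mulVec_eq_zero hdet h2
  set e : Fin n → ℝ := (2 * c)⁻¹ • e0 with hedef
  have hex' : ∀ x, e ⬝ᵥ Q *ᵥ x = L ⬝ᵥ x / 2 := by
    intro x
    rw [hedef, smul_dotProduct, hex, smul_eq_mul]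
    field_simp
  have heL' : L ⬝ᵥ e = 0 := by
    rw [hedef, dotProduct_smul, heL, smul_zero]
  set f : Fin n → ℝ := f0 - (f0 ⬝ᵥ Q *ᵥ f0) • e with hfdef
  have hf1 : L ⬝ᵥ f = 1 := by
    rw [hfdef, dotProduct_sub, dotProduct_smul, heL', hf0]; simp
  have hff : f ⬝ᵥ Q *ᵥ f = 0 := by
    have h1 : f ⬝ᵥ Q *ᵥ f = f0 ⬝ᵥ Q *ᵥ f - (f0 ⬝ᵥ Q *ᵥ f0) * (e ⬝ᵥ Q *ᵥ f) := by
      conv_lhs => rw [hfdef, sub_dotProduct, smul_dotProduct, smul_eq_mul]
    have h2 : f0 ⬝ᵥ Q *ᵥ f = f0 ⬝ᵥ Q *ᵥ f0 - (f0 ⬝ᵥ Q *ᵥ f0) * (f0 ⬝ᵥ Q *ᵥ e) := by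
      conv_lhs => rw [hfdef, Matrix.mulVec_sub, dotProduct_sub, Matrix.mulVec_smul,
        dotProduct_smul, smul_eq_mul]
    rw [h1, h2, hex', hf1, hsymm f0 e, hex', hf0]
    ring
  -- the bilinear form
  let bl : LinearMap.BilinForm ℝ (Fin n → ℝ) := Matrix.toBilin' Q
  have hbl : ∀ x y, bl x y = x ⬝ᵥ Q *ᵥ y := by
    intro x y
    rw [Matrix.toBilin'_apply']
  let φ : (Fin n → ℝ) →ₗ[ℝ] (Fin 2 → ℝ) := LinearMap.pi ![
    { toFun := fun x => L ⬝ᵥ x, map_add' := fun x y => dotProduct_add L x y,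
      map_smul' := fun a x => by simp [dotProduct_smul] }, bl f]
  have hφ0 : ∀ x, φ x 0 = L ⬝ᵥ x := fun x => rfl
  have hφ1 : ∀ x, φ x 1 = f ⬝ᵥ Q *ᵥ x := fun x => hbl f x
  set Y : Submodule ℝ (Fin n → ℝ) := LinearMap.ker φ with hY
  have hYmem : ∀ y : Y, L ⬝ᵥ (y : Fin n → ℝ) = 0 ∧ f ⬝ᵥ Q *ᵥ (y : Fin n → ℝ) = 0 := by
    intro y
    have h1 : φ y = 0 := y.2
    exact ⟨by rw [← hφ0, h1]; rfl, by rw [← hφ1, h1]; rfl⟩
  have hfr : Module.finrank ℝ Y + 2 = n := by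
    have hsurj : Function.Surjective φ := by
      intro t
      refine ⟨t 0 • f + (2 * t 1) • e, ?_⟩
      ext i
      fin_cases i
      · change φ (t 0 • f + (2 * t 1) • e) 0 = t 0
        rw [hφ0, dotProduct_add, dotProduct_smul, dotProduct_smul, hf1, heL']
        simp
      · change φ (t 0 • f + (2 * t 1) • e) 1 = t 1
        rw [hφ1, Matrix.mulVec_add, dotProduct_add, Matrix.mulVec_smul, Matrix.mulVec_smul,
          dotProduct_smul, dotProduct_smul, hff, hsymm f e, hex', hf1]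
        simp
        ring
    have h1 := LinearMap.finrank_range_add_finrank_ker φ
    rw [LinearMap.range_eq_top.2 hsurj, finrank_top, Module.finrank_fin_fun,
      Module.finrank_fin_fun, ← hY] at h1
    omega
  let bY : LinearMap.BilinForm ℝ Y := bl.restrict Y
  have hbYsymm : LinearMap.IsSymm bY := by
    constructor
    intro x y
    change bl x y = bl y x
    rw [hbl, hbl, hsymm]
  obtain ⟨v, hv⟩ := LinearMap.BilinForm.exists_orthogonal_basis (V := Y) (B := bY) hbYsymm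
  have hortho : ∀ i j, i ≠ j → (v i : Fin n → ℝ) ⬝ᵥ Q *ᵥ (v j : Fin n → ℝ) = 0 := by
    intro i j hij
    rw [← hbl]
    exact hv hij
  refine ⟨Module.finrank ℝ Y, e, f, fun i => v i, fun i => (v i : Fin n → ℝ) ⬝ᵥ Q *ᵥ (v i), hfr,
    hex', heL', hf1, hff, ?_, ?_, fun i => (hYmem (v i)).1, fun i => (hYmem (v i)).2⟩
  · intro i h0
    have h1 : ∀ y : Y, (v i : Fin n → ℝ) ⬝ᵥ Q *ᵥ (y : Fin n → ℝ) = 0 := by
      intro y
      have h2 : bY (v i) y = 0 := by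
        rw [← v.sum_repr y, map_sum]
        refine Finset.sum_eq_zero fun j _ => ?_
        rw [map_smul]
        by_cases hij : i = j
        · subst hij
          have : bY (v i) (v i) = 0 := by
            change bl (v i) (v i) = 0
            rw [hbl]; exact h0
          rw [this, smul_zero]
        · have : bY (v i) (v j) = 0 := hv hij
          rw [this, smul_zero]
      rw [← hbl]
      exact h2
    have h2 : ∀ x : Fin n → ℝ, (v i : Fin n → ℝ) ⬝ᵥ Q *ᵥ x = 0 := by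
      intro x
      set y : Fin n → ℝ := x - (L ⬝ᵥ x) • f - (2 * (f ⬝ᵥ Q *ᵥ x)) • e with hy
      have hyY : y ∈ Y := by
        rw [hY, LinearMap.mem_ker]
        ext j
        fin_cases j
        · change φ y 0 = 0
          rw [hφ0, hy, dotProduct_sub, dotProduct_sub, dotProduct_smul, dotProduct_smul, hf1, heL']
          simp
        · change φ y 1 = 0
          rw [hφ1, hy, Matrix.mulVec_sub, Matrix.mulVec_sub, dotProduct_sub, dotProduct_sub,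
            Matrix.mulVec_smul, Matrix.mulVec_smul, dotProduct_smul, dotProduct_smul, hff,
            hsymm f e, hex', hf1]
          simp only [smul_eq_mul]
          ring
      have hx : x = y + (L ⬝ᵥ x) • f + (2 * (f ⬝ᵥ Q *ᵥ x)) • e := by
        rw [hy]; abel
      rw [hx, Matrix.mulVec_add, Matrix.mulVec_add, dotProduct_add, dotProduct_add,
        Matrix.mulVec_smul, Matrix.mulVec_smul, dotProduct_smul, dotProduct_smul,
        h1 ⟨y, hyY⟩, hsymm _ f, (hYmem (v i)).2, hsymm _ e, hex', (hYmem (v i)).1]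
      simp
    have h3 : Q *ᵥ (v i : Fin n → ℝ) = 0 := by
      refine dotProduct_eq_zero _ fun x => ?_
      rw [dotProduct_comm, hsymm]
      exact h2 x
    have h4 : (v i : Fin n → ℝ) = 0 := Matrix.eq_zero_of_mulVec_eq_zero hdet h3
    exact v.ne_zero i (Subtype.ext h4)
  · intro i j
    by_cases hij : i = j
    · subst hij; simp
    · rw [if_neg hij]; exact hortho i j hij

theorem sys_pos (h3 : app3Statement) (n : ℕ) (Q : Matrix (Fin n) (Fin n) ℝ) (hQ : Qᵀ = Q)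
    (L : Fin n → ℝ) (h2 : Cond2 Q L) (m : ℕ) (hm2 : 2 ≤ m) (hm : m + 2 = n) (e f : Fin n → ℝ)
    (v : Fin m → Fin n → ℝ) (q : Fin m → ℝ)
    (he : ∀ x, e ⬝ᵥ Q *ᵥ x = L ⬝ᵥ x / 2) (heL : L ⬝ᵥ e = 0) (hf : L ⬝ᵥ f = 1)
    (hff : f ⬝ᵥ Q *ᵥ f = 0) (hq : ∀ i, 0 < q i)
    (hv : ∀ i j, v i ⬝ᵥ Q *ᵥ v j = if i = j then q i else 0)
    (hvL : ∀ i, L ⬝ᵥ v i = 0) (hvf : ∀ i, f ⬝ᵥ Q *ᵥ v i = 0) :
    Dense {y : ℝ × ℝ | ∃ v ∈ Prm (Fin n), y = val (Q, L) v} := by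
  refine finish h3 n m hm2 hm.symm 1 (Or.inl rfl) Q hQ L h2 e f
    (fun i => (Real.sqrt (q i))⁻¹ • v i) he heL hf hff ?_ ?_ ?_
  · intro i j
    rw [smul_dotProduct, Matrix.mulVec_smul, dotProduct_smul, hv, Matrix.one_apply]
    by_cases hij : i = j
    · subst hij
      rw [if_pos rfl, if_pos rfl, smul_eq_mul, smul_eq_mul]
      have h1 : Real.sqrt (q i) * Real.sqrt (q i) = q i := Real.mul_self_sqrt (hq i).le
      have h2 : Real.sqrt (q i) ≠ 0 := (Real.sqrt_pos.2 (hq i)).ne'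
      field_simp
      rw [sq, h1]
    · rw [if_neg hij, if_neg hij]; simp
  · intro i
    rw [dotProduct_smul, hvL]; simp
  · intro i
    rw [Matrix.mulVec_smul, dotProduct_smul, hvf]; simp

theorem dense_neg (n : ℕ) (Q : Matrix (Fin n) (Fin n) ℝ) (L : Fin n → ℝ)
    (h : Dense {y : ℝ × ℝ | ∃ v ∈ Prm (Fin n), y = val (-Q, L) v}) :
    Dense {y : ℝ × ℝ | ∃ v ∈ Prm (Fin n), y = val (Q, L) v} := by
  have hcont : Continuous (fun y : ℝ × ℝ => (-y.1, y.2)) := by fun_prop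
  have hrange : DenseRange (fun y : ℝ × ℝ => (-y.1, y.2)) := by
    refine Function.Surjective.denseRange ?_
    rintro ⟨a, b⟩
    exact ⟨(-a, b), by simp⟩
  refine (hrange.dense_image hcont h).mono ?_
  rintro _ ⟨_, ⟨v, hv, rfl⟩, rfl⟩
  refine ⟨v, hv, ?_⟩
  simp only [val, Prod.mk.injEq, and_true]
  rw [Matrix.neg_mulVec, dotProduct_neg, neg_neg]

theorem cond2_neg {ι : Type} [Fintype ι] (Q : Matrix ι ι ℝ) (L : ι → ℝ) (h : Cond2 Q L) :
    Cond2 (-Q) L := by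
  rintro α β hαβ ⟨c, B, hB⟩
  refine h (-α) β ?_ ⟨c, B, ?_⟩
  · intro h0
    apply hαβ
    rw [Prod.mk.injEq] at h0 ⊢
    exact ⟨neg_eq_zero.1 h0.1, h0.2⟩
  · rw [← hB, neg_smul, smul_neg]

theorem mixed (h3 : app3Statement) (n : ℕ) (Q : Matrix (Fin n) (Fin n) ℝ) (hQ : Qᵀ = Q)
    (L : Fin n → ℝ) (h2 : Cond2 Q L) (hm : 2 + 2 = n) (e f a b : Fin n → ℝ)
    (he : ∀ x, e ⬝ᵥ Q *ᵥ x = L ⬝ᵥ x / 2) (heL : L ⬝ᵥ e = 0) (hf : L ⬝ᵥ f = 1)
    (hff : f ⬝ᵥ Q *ᵥ f = 0) (haa : a ⬝ᵥ Q *ᵥ a = 1) (hbb : b ⬝ᵥ Q *ᵥ b = -1)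
    (hab : a ⬝ᵥ Q *ᵥ b = 0) (hba : b ⬝ᵥ Q *ᵥ a = 0) (hLa : L ⬝ᵥ a = 0) (hLb : L ⬝ᵥ b = 0)
    (hfa : f ⬝ᵥ Q *ᵥ a = 0) (hfb : f ⬝ᵥ Q *ᵥ b = 0) :
    Dense {y : ℝ × ℝ | ∃ v ∈ Prm (Fin n), y = val (Q, L) v} := by
  have hs : (Real.sqrt 2)⁻¹ * (Real.sqrt 2)⁻¹ = 1 / 2 := by
    rw [← mul_inv, Real.mul_self_sqrt (by norm_num)]; norm_num
  have hsum : ∀ s t s' t' : ℝ, ((Real.sqrt 2)⁻¹ • (s • a + t • b)) ⬝ᵥ
      Q *ᵥ ((Real.sqrt 2)⁻¹ • (s' • a + t' • b)) = (s * s' - t * t') / 2 := by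
    intro s t s' t'
    have h1 : (s • a + t • b) ⬝ᵥ Q *ᵥ (s' • a + t' • b) = s * s' - t * t' := by
      rw [Matrix.mulVec_add, Matrix.mulVec_smul, Matrix.mulVec_smul, dotProduct_add,
        dotProduct_smul, dotProduct_smul, add_dotProduct, add_dotProduct, smul_dotProduct,
        smul_dotProduct, smul_dotProduct, smul_dotProduct, haa, hbb, hab, hba]
      simp only [smul_eq_mul]
      ring
    rw [smul_dotProduct, Matrix.mulVec_smul, dotProduct_smul, smul_eq_mul, smul_eq_mul,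
      ← mul_assoc, hs, h1]
    ring
  have e1 : a + b = (1 : ℝ) • a + (1 : ℝ) • b := by rw [one_smul, one_smul]
  have e2 : a - b = (1 : ℝ) • a + (-1 : ℝ) • b := by
    rw [one_smul, neg_one_smul]; exact sub_eq_add_neg a b
  refine finish h3 n 2 le_rfl hm.symm (fun i j => if i = j then 0 else 1)
    (Or.inr ⟨rfl, fun i j => rfl⟩) Q hQ L h2 e f
    ![(Real.sqrt 2)⁻¹ • (a + b), (Real.sqrt 2)⁻¹ • (a - b)] he heL hf hff ?_ ?_ ?_
  · intro i j
    rw [e1, e2]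
    fin_cases i <;> fin_cases j
    · change ((Real.sqrt 2)⁻¹ • ((1 : ℝ) • a + (1 : ℝ) • b)) ⬝ᵥ
        Q *ᵥ ((Real.sqrt 2)⁻¹ • ((1 : ℝ) • a + (1 : ℝ) • b)) = _
      rw [hsum]; simp
    · change ((Real.sqrt 2)⁻¹ • ((1 : ℝ) • a + (1 : ℝ) • b)) ⬝ᵥ
        Q *ᵥ ((Real.sqrt 2)⁻¹ • ((1 : ℝ) • a + (-1 : ℝ) • b)) = (1 : ℝ)
      rw [hsum]; norm_num
    · change ((Real.sqrt 2)⁻¹ • ((1 : ℝ) • a + (-1 : ℝ) • b)) ⬝ᵥ
        Q *ᵥ ((Real.sqrt 2)⁻¹ • ((1 : ℝ) • a + (1 : ℝ) • b)) = (1 : ℝ)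
      rw [hsum]; norm_num
    · change ((Real.sqrt 2)⁻¹ • ((1 : ℝ) • a + (-1 : ℝ) • b)) ⬝ᵥ
        Q *ᵥ ((Real.sqrt 2)⁻¹ • ((1 : ℝ) • a + (-1 : ℝ) • b)) = _
      rw [hsum]; simp
  · intro i
    fin_cases i
    · change L ⬝ᵥ ((Real.sqrt 2)⁻¹ • (a + b)) = 0
      rw [dotProduct_smul, dotProduct_add, hLa, hLb]; simp
    · change L ⬝ᵥ ((Real.sqrt 2)⁻¹ • (a - b)) = 0
      rw [dotProduct_smul, dotProduct_sub, hLa, hLb]; simp
  · intro i
    fin_cases i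
    · change f ⬝ᵥ Q *ᵥ ((Real.sqrt 2)⁻¹ • (a + b)) = 0
      rw [Matrix.mulVec_smul, dotProduct_smul, Matrix.mulVec_add, dotProduct_add, hfa, hfb]
      simp
    · change f ⬝ᵥ Q *ᵥ ((Real.sqrt 2)⁻¹ • (a - b)) = 0
      rw [Matrix.mulVec_smul, dotProduct_smul, Matrix.mulVec_sub, dotProduct_sub, hfa, hfb]
      simp

theorem mixed' (h3 : app3Statement) (n : ℕ) (Q : Matrix (Fin n) (Fin n) ℝ) (hQ : Qᵀ = Q)
    (L : Fin n → ℝ) (h2 : Cond2 Q L) (hm : 2 + 2 = n) (e f x y : Fin n → ℝ) (r t : ℝ)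
    (he : ∀ x, e ⬝ᵥ Q *ᵥ x = L ⬝ᵥ x / 2) (heL : L ⬝ᵥ e = 0) (hf : L ⬝ᵥ f = 1)
    (hff : f ⬝ᵥ Q *ᵥ f = 0) (hr : 0 < r) (ht : t < 0) (hxx : x ⬝ᵥ Q *ᵥ x = r)
    (hyy : y ⬝ᵥ Q *ᵥ y = t) (hxy : x ⬝ᵥ Q *ᵥ y = 0) (hyx : y ⬝ᵥ Q *ᵥ x = 0)
    (hLx : L ⬝ᵥ x = 0) (hLy : L ⬝ᵥ y = 0)
    (hfx : f ⬝ᵥ Q *ᵥ x = 0) (hfy : f ⬝ᵥ Q *ᵥ y = 0) :
    Dense {y : ℝ × ℝ | ∃ v ∈ Prm (Fin n), y = val (Q, L) v} := by
  have ht' : 0 < -t := by linarith
  refine mixed h3 n Q hQ L h2 hm e f ((Real.sqrt r)⁻¹ • x) ((Real.sqrt (-t))⁻¹ • y)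
    he heL hf hff ?_ ?_ ?_ ?_ ?_ ?_ ?_ ?_
  · rw [smul_dotProduct, Matrix.mulVec_smul, dotProduct_smul, hxx, smul_eq_mul, smul_eq_mul]
    have h5 : Real.sqrt r * Real.sqrt r = r := Real.mul_self_sqrt hr.le
    have h6 : Real.sqrt r ≠ 0 := (Real.sqrt_pos.2 hr).ne'
    field_simp
    rw [sq, h5]
  · rw [smul_dotProduct, Matrix.mulVec_smul, dotProduct_smul, hyy, smul_eq_mul, smul_eq_mul]
    have h5 : Real.sqrt (-t) * Real.sqrt (-t) = -t := Real.mul_self_sqrt ht'.le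
    have h6 : Real.sqrt (-t) ≠ 0 := (Real.sqrt_pos.2 ht').ne'
    field_simp
    rw [sq, h5]
    ring
  · rw [smul_dotProduct, Matrix.mulVec_smul, dotProduct_smul, hxy]; simp
  · rw [smul_dotProduct, Matrix.mulVec_smul, dotProduct_smul, hyx]; simp
  · rw [dotProduct_smul, hLx, smul_zero]
  · rw [dotProduct_smul, hLy, smul_zero]
  · rw [Matrix.mulVec_smul, dotProduct_smul, hfx, smul_zero]
  · rw [Matrix.mulVec_smul, dotProduct_smul, hfy, smul_zero]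

end QL.H96

namespace QL
open QL.H96

theorem pairdeg (h3 : app3Statement) : pairdegStatement := by
  intro n hn Q L hQ hdet hL e0 he0 heL0 he00 hcase h2
  obtain ⟨m, e, f, v, q, hm, he, heL, hf, hff, hq, hv, hvL, hvf⟩ :=
    exists_system n Q L hQ hdet hL e0 he0 heL0 he00
  have hm2 : 2 ≤ m := by omega
  -- the negative case
  have hnegcase : (∀ i, q i < 0) →
      Dense {y : ℝ × ℝ | ∃ v ∈ Prm (Fin n), y = val (Q, L) v} := by
    intro hneg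
    refine dense_neg n Q L ?_
    refine sys_pos h3 n (-Q) (by rw [Matrix.transpose_neg, hQ]) L (cond2_neg Q L h2) m hm2 hm
      (-e) f v (fun i => - q i) ?_ ?_ hf ?_ ?_ ?_ hvL ?_
    · intro x
      rw [Matrix.neg_mulVec, neg_dotProduct_neg, he]
    · rw [dotProduct_neg, heL, neg_zero]
    · rw [Matrix.neg_mulVec, dotProduct_neg, hff, neg_zero]
    · intro i; linarith [hneg i]
    · intro i j
      rw [Matrix.neg_mulVec, dotProduct_neg, hv]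
      split_ifs <;> simp
    · intro i
      rw [Matrix.neg_mulVec, dotProduct_neg, hvf, neg_zero]
  rcases hcase with h4 | hpos | hneg
  · -- n = 4
    obtain rfl : m = 2 := by omega
    by_cases h0 : 0 < q 0
    · by_cases h1 : 0 < q 1
      · refine sys_pos h3 n Q hQ L h2 2 hm2 hm e f v q he heL hf hff ?_ hv hvL hvf
        intro i; fin_cases i
        exacts [h0, h1]
      · -- mixed signs
        have h1' : q 1 < 0 := lt_of_le_of_ne (not_lt.1 h1) (hq 1)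
        exact mixed' h3 n Q hQ L h2 hm e f (v 0) (v 1) (q 0) (q 1) he heL hf hff h0 h1'
          (by rw [hv]; simp) (by rw [hv]; simp) (by rw [hv]; simp) (by rw [hv]; simp)
          (hvL 0) (hvL 1) (hvf 0) (hvf 1)
    · have h0' : q 0 < 0 := lt_of_le_of_ne (not_lt.1 h0) (hq 0)
      by_cases h1 : 0 < q 1
      · exact mixed' h3 n Q hQ L h2 hm e f (v 1) (v 0) (q 1) (q 0) he heL hf hff h1 h0'
          (by rw [hv]; simp) (by rw [hv]; simp) (by rw [hv]; simp) (by rw [hv]; simp)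
          (hvL 1) (hvL 0) (hvf 1) (hvf 0)
      · have h1' : q 1 < 0 := lt_of_le_of_ne (not_lt.1 h1) (hq 1)
        refine hnegcase fun i => ?_
        fin_cases i
        exacts [h0', h1']
  · refine sys_pos h3 n Q hQ L h2 m hm2 hm e f v q he heL hf hff ?_ hv hvL hvf
    intro i
    have h1 := hpos (v i) (hvL i)
    rw [hv, if_pos rfl] at h1
    exact lt_of_le_of_ne h1 (hq i).symm
  · refine hnegcase fun i => ?_
    have h1 := hneg (v i) (hvL i)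
    rw [hv, if_pos rfl] at h1
    exact lt_of_le_of_ne h1 (hq i)

end QL
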