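import Pool.Agent.Helper27_QL.Defs

/-!
Minors (Pluecker vectors) of `ι × k` matrices.
-/

set_option autoImplicit false
open Matrix Polynomial MeasureTheory Set Filter Topology

namespace QL.Nd

set_option linter.unusedSectionVars false

variable {ι : Type} [Fintype ι] [DecidableEq ι]

/-- the vector of all `k × k` minors -/
def mnr {R : Type} [CommRing R] {ι : Type} {k : ℕ} (A : Matrix ι (Fin k) R) : (Fin k → ι) → R :=
  fun i => (A.submatrix i id).det

/-- the matrix with one more column (placed first) -/
def addc {R : Type} {ι : Type} {k : ℕ} (v : ι → R) (A : Matrix ι (Fin k) R) :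
    Matrix ι (Fin (k + 1)) R :=
  fun r => Fin.cons (v r) (A r)

theorem exists_minor_ne_zero {K : Type} [Field K] {k : ℕ} (A : Matrix ι (Fin k) K)
    (hA : LinearIndependent K (fun c => Aᵀ c)) : mnr A ≠ 0 := by
  classical
  have h1 : Aᵀ.rank = k := by
    have := LinearIndependent.rank_matrix (M := Aᵀ) (by simpa [Matrix.row_def] using hA)
    simpa using this
  have h2 : Module.finrank K (Submodule.span K (Set.range A)) = k := by
    rw [← rank_transpose, Matrix.transpose_transpose, Matrix.rank_eq_finrank_span_row] at h1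
    exact h1
  obtain ⟨κ, a, hinj, hspan, hli⟩ := exists_linearIndependent' K A
  have : Finite κ := Finite.of_injective a hinj
  have : Fintype κ := Fintype.ofFinite κ
  have hcard : Fintype.card κ = k := by
    rw [← h2, ← hspan]
    exact (finrank_span_eq_card hli).symm
  let e : Fin k ≃ κ := (Fintype.equivFinOfCardEq hcard).symm
  intro h0
  have h3 : (A.submatrix (a ∘ e) id).det = 0 := congrFun h0 (a ∘ e)
  have h4 : LinearIndependent K ((A ∘ a) ∘ e) := hli.comp e e.injective
  have h5 : IsUnit (A.submatrix (a ∘ e) id) := by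
    rw [← Matrix.linearIndependent_rows_iff_isUnit]
    exact h4
  rw [Matrix.isUnit_iff_isUnit_det, h3] at h5
  exact not_isUnit_zero h5

theorem mnr_addc {R : Type} [CommRing R] {k : ℕ} (v : ι → R) (A : Matrix ι (Fin k) R)
    (i : Fin (k + 1) → ι) :
    mnr (addc v A) i = ∑ j : Fin (k + 1), (-1) ^ (j : ℕ) * v (i j) * mnr A (i ∘ j.succAbove) := by
  unfold mnr
  rw [Matrix.det_succ_column_zero]
  rfl

theorem mnr_mul {R : Type} [CommRing R] {k : ℕ} (A : Matrix ι (Fin k) R)
    (M : Matrix (Fin k) (Fin k) R) : mnr (A * M) = M.det • mnr A := by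
  ext i
  simp only [mnr, Pi.smul_apply, smul_eq_mul]
  have : (A * M).submatrix i id = A.submatrix i id * M := by
    ext a b
    simp [Matrix.mul_apply]
  rw [this, Matrix.det_mul, mul_comm]

theorem mnr_map {R S : Type} [CommRing R] [CommRing S] (f : R →+* S) {k : ℕ}
    (A : Matrix ι (Fin k) R) : mnr (A.map f) = fun i => f (mnr A i) := by
  ext i
  simp only [mnr]
  rw [RingHom.map_det]
  rfl

/-- the minors of `g * A` -/
theorem mnr_gmul {R : Type} [CommRing R] {k : ℕ} (g : Matrix ι ι R) (A : Matrix ι (Fin k) R)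
    (i : Fin k → ι) : mnr (g * A) i = ∑ j : Fin k → ι, (∏ a, g (i a) (j a)) * mnr A j := by
  unfold mnr
  have h1 : ((g * A).submatrix i id) = fun a => ∑ r : ι, g (i a) r • A r := by
    ext a b
    simp [Matrix.mul_apply, Finset.sum_apply]
  have h2 : ((g * A).submatrix i id).det =
      Matrix.detRowAlternating (fun a => ∑ r : ι, g (i a) r • A r) := by
    rw [← h1]; rfl
  rw [h2]
  change (Matrix.detRowAlternating (R := R) (n := Fin k)).toMultilinearMap _ = _
  rw [MultilinearMap.map_sum]
  refine Finset.sum_congr rfl fun j _ => ?_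
  rw [MultilinearMap.map_smul_univ]
  rfl

theorem mnr_eq_zero_of_addc {K : Type} [Field K] {k : ℕ} (v : ι → K) (A : Matrix ι (Fin k) K)
    (hv : v ∈ Submodule.span K (Set.range (fun c => Aᵀ c))) : mnr (addc v A) = 0 := by
  obtain ⟨c, hc⟩ := (Submodule.mem_span_range_iff_exists_fun K).1 hv
  ext i
  simp only [mnr, Pi.zero_apply]
  refine Matrix.exists_mulVec_eq_zero_iff.1 ⟨Fin.cons 1 (fun j => - c j), ?_, ?_⟩
  · intro h
    have := congrFun h 0
    simp at this
  · ext a
    simp only [Matrix.mulVec, dotProduct, Matrix.submatrix_apply, id_eq, addc, Fin.sum_univ_succ,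
      Fin.cons_zero, Fin.cons_succ, Pi.zero_apply, mul_one]
    have := congrFun hc (i a)
    simp only [Finset.sum_apply, Pi.smul_apply, smul_eq_mul, Matrix.transpose_apply] at this
    rw [← this, ← Finset.sum_add_distrib]
    refine Finset.sum_eq_zero fun j _ => ?_
    ring

theorem linInd_addc {K : Type} [Field K] {k : ℕ} (v : ι → K) (A : Matrix ι (Fin k) K)
    (hA : LinearIndependent K (fun c => Aᵀ c))
    (hv : v ∉ Submodule.span K (Set.range (fun c => Aᵀ c))) :
    LinearIndependent K (fun c => (addc v A)ᵀ c) := by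
  have h : (fun c => (addc v A)ᵀ c) = (Fin.cons v (fun c => Aᵀ c) : Fin (k + 1) → ι → K) := by
    ext c r
    refine Fin.cases ?_ (fun j => ?_) c
    · simp [addc]
    · simp [addc]
  rw [h, linearIndependent_finCons]
  exact ⟨hA, hv⟩

end QL.Nd
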