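import Pool.Agent.Helper96_QL.Pluecker

/-!
Integer representatives of rational subspaces.
-/

set_option autoImplicit false
open Matrix Polynomial MeasureTheory Set Filter Topology

namespace QL.Nd

set_option linter.unusedSectionVars false

variable {ι : Type} [Fintype ι] [DecidableEq ι]

/-- rational version of an integer matrix -/
def qm {ι κ : Type} (A : Matrix ι κ ℤ) : Matrix ι κ ℚ := A.map (Int.castRingHom ℚ)
/-- real version of an integer matrix -/
def rm {ι κ : Type} (A : Matrix ι κ ℤ) : Matrix ι κ ℝ := A.map (Int.castRingHom ℝ)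

/-- the columns of `A` are linearly independent vectors of `V` -/
structure Rep (V : Submodule ℚ (ι → ℚ)) {k : ℕ} (A : Matrix ι (Fin k) ℤ) : Prop where
  li : LinearIndependent ℚ (fun c => (qm A)ᵀ c)
  mem : ∀ c, (qm A)ᵀ c ∈ V

theorem den_dvd_mul (q : ℚ) (d : ℕ) (h : q.den ∣ d) : ∃ n : ℤ, (n : ℚ) = d * q := by
  obtain ⟨e, rfl⟩ := h
  refine ⟨q.num * e, ?_⟩
  push_cast
  rw [← Rat.mul_den_eq_num q]
  ring

theorem exists_rep (V : Submodule ℚ (ι → ℚ)) :
    ∃ A : Matrix ι (Fin (Module.finrank ℚ V)) ℤ, Rep V A := by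
  classical
  let b := Module.finBasis ℚ V
  let d : Fin (Module.finrank ℚ V) → ℕ := fun c => ∏ r : ι, ((b c : ι → ℚ) r).den
  have hd : ∀ c, (d c : ℚ) ≠ 0 := by
    intro c
    have : d c ≠ 0 := Finset.prod_ne_zero_iff.2 fun r _ => ((b c : ι → ℚ) r).den_nz
    exact_mod_cast this
  have hn : ∀ r c, ∃ n : ℤ, (n : ℚ) = d c * (b c : ι → ℚ) r := by
    intro r c
    exact den_dvd_mul _ _ (Finset.dvd_prod_of_mem _ (Finset.mem_univ r))
  choose n hn using hn
  have hcol : ∀ c, (qm (Matrix.of n))ᵀ c = (d c : ℚ) • (b c : ι → ℚ) := by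
    intro c
    ext r
    simp only [qm, Matrix.transpose_apply, Matrix.map_apply, Matrix.of_apply, Pi.smul_apply,
      smul_eq_mul]
    exact hn r c
  refine ⟨Matrix.of n, ?_, ?_⟩
  · have h1 : LinearIndependent ℚ (fun c => (b c : ι → ℚ)) := by
      have := b.linearIndependent.map' V.subtype (Submodule.ker_subtype V)
      exact this
    have h2 := h1.units_smul (fun c => Units.mk0 (d c : ℚ) (hd c))
    have h3 : (fun c => (qm (Matrix.of n))ᵀ c) =
        ((fun c => Units.mk0 (d c : ℚ) (hd c)) • (fun c => (b c : ι → ℚ)) : _ → ι → ℚ) := by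
      funext c
      rw [hcol c]
      rfl
    rw [h3]
    exact h2
  · intro c
    rw [hcol c]
    exact V.smul_mem _ (b c).2

theorem Rep.span_eq {V : Submodule ℚ (ι → ℚ)} {k : ℕ} {A : Matrix ι (Fin k) ℤ} (h : Rep V A)
    (hk : k = Module.finrank ℚ V) : Submodule.span ℚ (Set.range (fun c => (qm A)ᵀ c)) = V := by
  refine Submodule.eq_of_le_of_finrank_eq ?_ ?_
  · rw [Submodule.span_le]
    rintro _ ⟨c, rfl⟩
    exact h.mem c
  · rw [finrank_span_eq_card h.li, Fintype.card_fin, hk]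

theorem Rep.ratio {V : Submodule ℚ (ι → ℚ)} {k : ℕ} {A B : Matrix ι (Fin k) ℤ} (h : Rep V A)
    (hB : Rep V B) (hk : k = Module.finrank ℚ V) :
    ∃ M : Matrix (Fin k) (Fin k) ℚ, qm B = qm A * M := by
  have h1 : ∀ c, ∃ m : Fin k → ℚ, ∑ j, m j • (qm A)ᵀ j = (qm B)ᵀ c := by
    intro c
    have : (qm B)ᵀ c ∈ Submodule.span ℚ (Set.range (fun c => (qm A)ᵀ c)) := by
      rw [h.span_eq hk]; exact hB.mem c
    exact (Submodule.mem_span_range_iff_exists_fun ℚ).1 this
  choose m hm using h1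
  refine ⟨Matrix.of fun j c => m c j, ?_⟩
  ext r c
  have := congrFun (hm c) r
  simp only [Finset.sum_apply, Pi.smul_apply, smul_eq_mul, Matrix.transpose_apply] at this
  rw [← this, Matrix.mul_apply]
  exact Finset.sum_congr rfl fun j _ => by rw [Matrix.of_apply, mul_comm]

/-- size of the vector of minors -/
def mu {k : ℕ} (A : Matrix ι (Fin k) ℤ) : ℕ := ∑ i : Fin k → ι, (mnr A i).natAbs

theorem mu_cast {k : ℕ} (A : Matrix ι (Fin k) ℤ) : (mu A : ℚ) = ∑ i, |mnr (qm A) i| := by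
  unfold mu qm
  rw [mnr_map]
  push_cast
  refine Finset.sum_congr rfl fun i _ => ?_
  simp

theorem mu_pos {V : Submodule ℚ (ι → ℚ)} {k : ℕ} {A : Matrix ι (Fin k) ℤ} (h : Rep V A) :
    0 < mu A := by
  rw [Nat.pos_iff_ne_zero]
  intro h0
  apply exists_minor_ne_zero (qm A) h.li
  ext i
  have h1 : (mnr A i).natAbs = 0 := by
    have := Finset.sum_eq_zero_iff.1 h0 i (Finset.mem_univ i)
    exact this
  have h2 : mnr A i = 0 := Int.natAbs_eq_zero.1 h1
  unfold qm
  rw [mnr_map]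
  simp [h2]

theorem exists_minrep (V : Submodule ℚ (ι → ℚ)) :
    ∃ A : Matrix ι (Fin (Module.finrank ℚ V)) ℤ, Rep V A ∧
      ∀ B : Matrix ι (Fin (Module.finrank ℚ V)) ℤ, Rep V B → mu A ≤ mu B := by
  obtain ⟨A, hA, hmin⟩ := WellFounded.has_min (measure (mu (ι := ι) (k := Module.finrank ℚ V))).wf
    {A | Rep V A} (exists_rep V)
  exact ⟨A, hA, fun B hB => not_lt.1 (hmin B hB)⟩

/-- a representative with minimal minors -/
noncomputable def mr (V : Submodule ℚ (ι → ℚ)) : Matrix ι (Fin (Module.finrank ℚ V)) ℤ :=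
  (exists_minrep V).choose

theorem mr_rep (V : Submodule ℚ (ι → ℚ)) : Rep V (mr V) := (exists_minrep V).choose_spec.1

theorem mr_min (V : Submodule ℚ (ι → ℚ)) (B : Matrix ι (Fin (Module.finrank ℚ V)) ℤ)
    (hB : Rep V B) : mu (mr V) ≤ mu B := (exists_minrep V).choose_spec.2 B hB

/-- the covolume function -/
noncomputable def cov (h : Matrix ι ι ℝ) (V : Submodule ℚ (ι → ℚ)) : ℝ :=
  ‖mnr (h * rm (mr V))‖

theorem cov_le (h : Matrix ι ι ℝ) (V : Submodule ℚ (ι → ℚ)) {k : ℕ} (B : Matrix ι (Fin k) ℤ)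
    (hB : Rep V B) (hk : k = Module.finrank ℚ V) : cov h V ≤ ‖mnr (h * rm B)‖ := by
  subst hk
  obtain ⟨M, hM⟩ := (mr_rep V).ratio hB rfl
  have h1 : (mu B : ℚ) = |M.det| * mu (mr V) := by
    rw [mu_cast, mu_cast, hM, mnr_mul, Finset.mul_sum]
    refine Finset.sum_congr rfl fun i _ => ?_
    rw [Pi.smul_apply, smul_eq_mul, abs_mul]
  have h2 : (mu (mr V) : ℚ) ≤ mu B := by exact_mod_cast mr_min V B hB
  have h3 : (0 : ℚ) < mu (mr V) := by exact_mod_cast mu_pos (mr_rep V)
  have h4 : (1 : ℚ) ≤ |M.det| := by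
    by_contra hcon
    push Not at hcon
    have : |M.det| * mu (mr V) < 1 * mu (mr V) := mul_lt_mul_of_pos_right hcon h3
    linarith
  have h5 : rm B = rm (mr V) * M.map (Rat.castHom ℝ) := by
    have h6 : ∀ {κ : Type} (A : Matrix ι κ ℤ), rm A = (qm A).map (Rat.castHom ℝ) := by
      intro κ A
      ext r c
      simp [rm, qm]
    rw [h6, h6, hM, Matrix.map_mul]
  have h7 : (1 : ℝ) ≤ |(M.map (Rat.castHom ℝ)).det| := by
    rw [← RingHom.mapMatrix_apply, ← RingHom.map_det, Rat.coe_castHom]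
    have : ((1 : ℚ) : ℝ) ≤ ((|M.det| : ℚ) : ℝ) := by exact_mod_cast h4
    simpa using this
  rw [h5, ← Matrix.mul_assoc, mnr_mul, norm_smul, Real.norm_eq_abs]
  exact le_mul_of_one_le_left (norm_nonneg _) h7

theorem norm_mnr_addc {k : ℕ} (v : ι → ℝ) (A : Matrix ι (Fin k) ℝ) :
    ‖mnr (addc v A)‖ ≤ (k + 1) * ‖v‖ * ‖mnr A‖ := by
  rw [pi_norm_le_iff_of_nonneg (by positivity)]
  intro i
  rw [mnr_addc]
  calc ‖∑ j : Fin (k + 1), (-1) ^ (j : ℕ) * v (i j) * mnr A (i ∘ j.succAbove)‖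
      ≤ ∑ j : Fin (k + 1), ‖(-1) ^ (j : ℕ) * v (i j) * mnr A (i ∘ j.succAbove)‖ :=
        norm_sum_le _ _
    _ ≤ ∑ _j : Fin (k + 1), ‖v‖ * ‖mnr A‖ := by
        refine Finset.sum_le_sum fun j _ => ?_
        rw [norm_mul, norm_mul, norm_pow, norm_neg, norm_one, one_pow, one_mul]
        exact mul_le_mul (norm_le_pi_norm v _) (norm_le_pi_norm (mnr A) _) (norm_nonneg _)
          (norm_nonneg _)
    _ = (k + 1) * ‖v‖ * ‖mnr A‖ := by
        rw [Finset.sum_const, Finset.card_univ, Fintype.card_fin, nsmul_eq_mul]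
        push_cast; ring

theorem mul_addc {R : Type} [CommRing R] {k : ℕ} (h : Matrix ι ι R) (v : ι → R)
    (A : Matrix ι (Fin k) R) : h * addc v A = addc (h *ᵥ v) (h * A) := by
  ext r c
  refine Fin.cases ?_ (fun j => ?_) c
  · simp [Matrix.mul_apply, addc, Matrix.mulVec, dotProduct]
  · simp [Matrix.mul_apply, addc]

theorem rm_addc {k : ℕ} (v : ι → ℤ) (A : Matrix ι (Fin k) ℤ) :
    rm (addc v A) = addc (iv v) (rm A) := by
  ext r c
  refine Fin.cases ?_ (fun j => ?_) c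
  · simp [rm, addc, iv]
  · simp [rm, addc]

theorem qm_addc {k : ℕ} (v : ι → ℤ) (A : Matrix ι (Fin k) ℤ) :
    qm (addc v A) = addc (fun r => (v r : ℚ)) (qm A) := by
  ext r c
  refine Fin.cases ?_ (fun j => ?_) c
  · simp [qm, addc]
  · simp [qm, addc]

/-- adding an integer vector to a rational subspace -/
theorem cov_sup_le (h : Matrix ι ι ℝ) (V : Submodule ℚ (ι → ℚ)) (v : ι → ℤ)
    (hv : (fun r => (v r : ℚ)) ∉ V) :
    cov h (V ⊔ Submodule.span ℚ {fun r => (v r : ℚ)}) ≤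
      (Module.finrank ℚ V + 1) * ‖h *ᵥ iv v‖ * cov h V := by
  set vq : ι → ℚ := fun r => (v r : ℚ) with hvq
  set W : Submodule ℚ (ι → ℚ) := V ⊔ Submodule.span ℚ {vq} with hW
  have hrep : Rep W (addc v (mr V)) := by
    constructor
    · rw [qm_addc]
      refine linInd_addc _ _ (mr_rep V).li ?_
      rw [(mr_rep V).span_eq rfl]
      exact hv
    · intro c
      rw [qm_addc]
      refine Fin.cases ?_ (fun j => ?_) c
      · have : (addc vq (qm (mr V)))ᵀ 0 = vq := by
          ext r; simp [addc]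
        rw [this]
        exact (le_sup_right : Submodule.span ℚ {vq} ≤ W) (Submodule.mem_span_singleton_self _)
      · have : (addc vq (qm (mr V)))ᵀ j.succ = (qm (mr V))ᵀ j := by
          ext r; simp [addc]
        rw [this]
        exact (le_sup_left : V ≤ W) ((mr_rep V).mem j)
  have hfr : Module.finrank ℚ V + 1 = Module.finrank ℚ W := by
    have h1 : Submodule.span ℚ (Set.range (fun c => (qm (addc v (mr V)))ᵀ c)) = W := by
      apply le_antisymm
      · rw [Submodule.span_le]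
        rintro _ ⟨c, rfl⟩
        exact hrep.mem c
      · rw [hW]
        refine sup_le ?_ ?_
        · conv_lhs => rw [← (mr_rep V).span_eq rfl]
          rw [Submodule.span_le]
          rintro _ ⟨c, rfl⟩
          refine Submodule.subset_span ⟨c.succ, ?_⟩
          ext r
          simp [qm_addc, addc]
        · rw [Submodule.span_le, Set.singleton_subset_iff]
          refine Submodule.subset_span ⟨0, ?_⟩
          ext r
          simp [qm_addc, addc, hvq]
    rw [← h1, finrank_span_eq_card hrep.li, Fintype.card_fin]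
  refine (cov_le h W _ hrep hfr).trans ?_
  rw [rm_addc, mul_addc]
  exact norm_mnr_addc _ _

theorem cov_bot (h : Matrix ι ι ℝ) : cov h (⊥ : Submodule ℚ (ι → ℚ)) ≤ 1 := by
  have hrep : Rep (⊥ : Submodule ℚ (ι → ℚ)) (fun (_ : ι) (c : Fin 0) => (c.elim0 : ℤ)) :=
    ⟨linearIndependent_empty_type, fun c => c.elim0⟩
  refine (cov_le h ⊥ _ hrep (by simp)).trans ?_
  rw [pi_norm_le_iff_of_nonneg zero_le_one]
  intro i
  simp [mnr]

end QL.Nd
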